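import Pool.Agent.Helper45.HS.Defs

/-!
# HS-08 Avoid

Countably many nonzero complex polynomials have a common non-root: the union of the root sets is countable
(`Set.countable_iUnion`, `Multiset.finite_toSet` / `Polynomial.rootSet_finite`), and `ℂ` is not countable
(`Cardinal.not_countable_real`-type facts, `Complex` : `Set.not_countable_univ`, instance `Uncountable ℂ`).
`avoid_unit`: for countably many `(n, c)` with `n ≠ 0` there is a nonzero `r` with `r ^ n + r ^ (-n) ≠ c`: multiply by `r ^ |n|`: the polynomial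
`X ^ (2 |n|) - c X ^ |n| + 1` is nonzero (its value at `0` is `1`; for `n ≠ 0`), together with the polynomial `X`.
-/

set_option autoImplicit false

namespace Pool.Agent.Helper45.HS

open Polynomial

theorem avoid {S : Type} [Countable S] (p : S → ℂ[X]) (h : ∀ s, p s ≠ 0) :
    ∃ T : ℂ, ∀ s, (p s).eval T ≠ 0 := by
  classical
  have h1 : (⋃ s, {T : ℂ | (p s).eval T = 0}).Countable := by
    refine Set.countable_iUnion fun s => ?_
    have h2 : {T : ℂ | (p s).eval T = 0} ⊆ ((p s).roots.toFinset : Set ℂ) := by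
      intro T hT
      rw [Finset.mem_coe, Multiset.mem_toFinset, mem_roots (h s)]
      exact hT
    exact (Finset.countable_toSet _).mono h2
  by_contra hcon
  push Not at hcon
  apply not_countable_complex
  refine h1.mono fun T _ => ?_
  obtain ⟨s, hs⟩ := hcon T
  exact Set.mem_iUnion.2 ⟨s, hs⟩

theorem avoid_unit {S : Type} [Countable S] (n : S → ℤ) (c : S → ℂ) :
    ∃ r : ℂˣ, ∀ s, n s ≠ 0 → ((r ^ n s : ℂˣ) : ℂ) + ((r ^ (-n s) : ℂˣ) : ℂ) ≠ c s := by
  classical
  let q : S → ℂ[X] := fun s =>
    if n s = 0 then 1 else X ^ (2 * (n s).natAbs) - C (c s) * X ^ (n s).natAbs + 1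
  have hq : ∀ s, q s ≠ 0 := by
    intro s h0
    by_cases hs : n s = 0
    · have h1 : q s = 1 := if_pos hs
      rw [h1] at h0
      exact one_ne_zero h0
    · have h1 : q s = X ^ (2 * (n s).natAbs) - C (c s) * X ^ (n s).natAbs + 1 := if_neg hs
      rw [h1] at h0
      have h2 := congrArg (eval 0) h0
      have h3 : (n s).natAbs ≠ 0 := Int.natAbs_ne_zero.2 hs
      have h4 : 2 * (n s).natAbs ≠ 0 := by omega
      rw [eval_add, eval_sub, eval_mul, eval_pow, eval_pow, eval_X, eval_C, eval_one, eval_zero,
        zero_pow h3, zero_pow h4] at h2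
      simp at h2
  obtain ⟨T, hT⟩ := avoid (fun o : Option S => o.elim (X : ℂ[X]) q) (by
    intro o
    cases o with
    | none => exact X_ne_zero
    | some s => exact hq s)
  have hT0 : T ≠ 0 := by
    have := hT none
    rw [Option.elim_none, eval_X] at this
    exact this
  refine ⟨Units.mk0 T hT0, fun s hs heq => ?_⟩
  have h1 := hT (some s)
  rw [Option.elim_some] at h1
  apply h1
  have h2 : q s = X ^ (2 * (n s).natAbs) - C (c s) * X ^ (n s).natAbs + 1 := if_neg hs
  rw [h2]
  simp only [eval_add, eval_sub, eval_mul, eval_pow, eval_X, eval_C, eval_one]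
  rw [Units.val_zpow_eq_zpow_val, Units.val_zpow_eq_zpow_val, Units.val_mk0] at heq
  have hk : T ^ (n s).natAbs ≠ 0 := pow_ne_zero _ hT0
  have h3 : T ^ n s + T ^ (-n s) = T ^ (n s).natAbs + (T ^ (n s).natAbs)⁻¹ := by
    rcases Int.natAbs_eq (n s) with h4 | h4
    · conv_lhs => rw [h4]
      rw [zpow_neg, zpow_natCast]
    · conv_lhs => rw [h4]
      rw [neg_neg, zpow_neg, zpow_natCast, add_comm]
  rw [h3] at heq
  rw [← heq]
  field_simp
  ring

instance (N : ℕ) : Countable (FreeGroup (Fin N)) := by
  have h : Function.Surjective (FreeGroup.mk : List (Fin N × Bool) → FreeGroup (Fin N)) :=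
    Quot.mk_surjective
  exact h.countable

end Pool.Agent.Helper45.HS
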