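import Pool.Agent.Helper45.HS.Defs

/-!
# HS-04 Ops

Traces, the matrices of `g t`, `Quad` and `Matched` under sums and tensor products. All by unfolding (`Matrix.trace_kronecker`,
`Matrix.trace_fromBlocks`, `map_mul`).
`Z_sum`: `sumU (ρ_V g, ρ_W g) * sumU (T_V, T_W) = sumU (ρ_V g T_V, ρ_W g T_W)` (`map_mul`), same for `kronU`.
`matched_sum`: `S = sumU (S₁, S₂)`.
`quad_sum`: the vectors `Sum.elim D 0` (`Matrix.fromBlocks_mulVec`, `Matrix.vecMul_fromBlocks`, `Sum.elim_dotProduct_sumElim` or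
`dotProduct` over `ι ⊕ κ` by `Fintype.sum_sum_type`).
`quad_kr`: fix `k₀ : κ`; the vectors are `D' (a, k) = D a` if `k = k₀`, else `0`. The matrix of `w` is `mat w ⊗ 1` and the matrix of `g t` is
`Z g ⊗ 1`; so `(mat w ⊗ 1) *ᵥ D' = (mat w *ᵥ D)'`, `F' ᵥ* (M ⊗ 1) = (F ᵥ* M)'` and `F' ⬝ᵥ D' = F ⬝ᵥ D`: prove these three facts first for
arbitrary `M`, then everything follows.
-/

set_option autoImplicit false

namespace Pool.Agent.Helper45.HS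

open Matrix

variable {N : ℕ} {φ : FreeGroup (Fin N) →* FreeGroup (Fin N)} {i : ℕ} {ι κ : Type} [Fintype ι] [DecidableEq ι]
  [Fintype κ] [DecidableEq κ]

theorem Rep.tr_sum (V : Rep φ i ι) (W : Rep φ i κ) (w : FreeGroup (Fin N)) :
    (V.sum W).tr w = V.tr w + W.tr w := by
  have h : (V.sum W).mat w = Matrix.fromBlocks (V.mat w) 0 0 (W.mat w) := rfl
  unfold Rep.tr
  rw [h]
  simp [Matrix.trace, Fintype.sum_sum_type, Matrix.diag]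

theorem Rep.tr_kr (V : Rep φ i ι) (W : Rep φ i κ) (w : FreeGroup (Fin N)) :
    (V.kr W).tr w = V.tr w * W.tr w := by
  have h : (V.kr W).mat w = Matrix.kroneckerMap (· * ·) (V.mat w) (W.mat w) := rfl
  unfold Rep.tr
  rw [h]
  exact Matrix.trace_kronecker _ _

theorem Rep.tr_cst (A : U κ) (w : FreeGroup (Fin N)) :
    (Rep.cst φ i A).tr w = (Fintype.card κ : ℂ) := by
  have h : (Rep.cst φ i A).mat w = 1 := rfl
  unfold Rep.tr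
  rw [h, Matrix.trace_one]

theorem Rep.tr_twist (V : Rep φ i ι) (z : U ι) (w : FreeGroup (Fin N)) :
    (V.twist z).tr w = V.tr w * (Fintype.card ι : ℂ) := by
  unfold Rep.twist
  rw [Rep.tr_kr, Rep.tr_cst]

theorem Rep.Z_sum (V : Rep φ i ι) (W : Rep φ i κ) (g : FreeGroup (Fin N)) :
    (V.sum W).Z g = sumU (V.Z g, W.Z g) := by
  change sumU (V.ρ g, W.ρ g) * sumU (V.T, W.T) = _
  rw [← map_mul]
  rfl

theorem Rep.Z_kr (V : Rep φ i ι) (W : Rep φ i κ) (g : FreeGroup (Fin N)) :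
    (V.kr W).Z g = kronU (V.Z g, W.Z g) := by
  change kronU (V.ρ g, W.ρ g) * kronU (V.T, W.T) = _
  rw [← map_mul]
  rfl

theorem Rep.Z_cst (A : U κ) (g : FreeGroup (Fin N)) : (Rep.cst φ i A).Z g = A := by
  change (1 : U κ) * A = A
  rw [one_mul]

theorem matched_sum (V : Rep φ i ι) (W : Rep φ i κ) (g h : FreeGroup (Fin N)) (h1 : Matched V g h)
    (h2 : Matched W g h) : Matched (V.sum W) g h := by
  obtain ⟨S1, h1⟩ := h1
  obtain ⟨S2, h2⟩ := h2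
  refine ⟨sumU (S1, S2), ?_⟩
  rw [Rep.Z_sum, Rep.Z_sum, ← map_mul, ← map_mul, Prod.mk_mul_mk, Prod.mk_mul_mk, h1, h2]

private theorem sum_mv (M : Matrix ι ι ℂ) (M' : Matrix κ κ ℂ) (D : ι → ℂ) :
    Matrix.fromBlocks M 0 0 M' *ᵥ (Sum.elim D 0 : ι ⊕ κ → ℂ) = Sum.elim (M *ᵥ D) 0 := by
  rw [Matrix.fromBlocks_mulVec]
  have h1 : (Sum.elim D 0 : ι ⊕ κ → ℂ) ∘ Sum.inl = D := rfl
  have h2 : (Sum.elim D 0 : ι ⊕ κ → ℂ) ∘ Sum.inr = 0 := rfl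
  rw [h1, h2]
  simp

private theorem sum_vm (M : Matrix ι ι ℂ) (M' : Matrix κ κ ℂ) (F : ι → ℂ) :
    (Sum.elim F 0 : ι ⊕ κ → ℂ) ᵥ* Matrix.fromBlocks M 0 0 M' = Sum.elim (F ᵥ* M) 0 := by
  rw [Matrix.vecMul_fromBlocks]
  have h1 : (Sum.elim F 0 : ι ⊕ κ → ℂ) ∘ Sum.inl = F := rfl
  have h2 : (Sum.elim F 0 : ι ⊕ κ → ℂ) ∘ Sum.inr = 0 := rfl
  rw [h1, h2]
  simp

omit [DecidableEq ι] [DecidableEq κ] in
private theorem sum_dot (F D : ι → ℂ) :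
    (Sum.elim F 0 : ι ⊕ κ → ℂ) ⬝ᵥ (Sum.elim D 0 : ι ⊕ κ → ℂ) = F ⬝ᵥ D := by
  simp [dotProduct, Fintype.sum_sum_type]

theorem quad_sum (V : Rep φ i ι) (W : Rep φ i κ) (g h : FreeGroup (Fin N))
    (c : FreeGroup (Fin N) → ℂ) (D1 F1 D2 F2 : ι → ℂ) (hq : Quad V g h c D1 F1 D2 F2) :
    ∃ D1' F1' D2' F2' : ι ⊕ κ → ℂ, Quad (V.sum W) g h c D1' F1' D2' F2' := by
  have hZ : ∀ g, (((V.sum W).Z g : U (ι ⊕ κ)) : Matrix (ι ⊕ κ) (ι ⊕ κ) ℂ) =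
      Matrix.fromBlocks ((V.Z g : U ι) : Matrix ι ι ℂ) 0 0 ((W.Z g : U κ) : Matrix κ κ ℂ) := by
    intro g
    rw [Rep.Z_sum]
    rfl
  have hM : ∀ w, (V.sum W).mat w = Matrix.fromBlocks (V.mat w) 0 0 (W.mat w) := fun w => rfl
  refine ⟨Sum.elim D1 0, Sum.elim F1 0, Sum.elim D2 0, Sum.elim F2 0, ?_, ?_, ?_, ?_, ?_, ?_, ?_,
    ?_⟩
  · rw [hZ, sum_mv, hq.d1]
  · rw [hZ, sum_vm, hq.f1]
  · rw [hZ, sum_mv, hq.d2]
  · rw [hZ, sum_vm, hq.f2]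
  · intro w; rw [hM, sum_mv, sum_dot, hq.c1]
  · intro w; rw [hM, sum_mv, sum_dot, hq.c2]
  · intro w; rw [hM, sum_mv, sum_dot, hq.m1]
  · intro w; rw [hM, sum_mv, sum_dot, hq.m2]

/-- the vector `D` in the slice `k₀` -/
private def slc (k₀ : κ) (D : ι → ℂ) : ι × κ → ℂ := fun p => if p.2 = k₀ then D p.1 else 0

omit [DecidableEq ι] in
private theorem kr_mv (k₀ : κ) (M : Matrix ι ι ℂ) (D : ι → ℂ) :
    Matrix.kroneckerMap (· * ·) M (1 : Matrix κ κ ℂ) *ᵥ slc k₀ D = slc k₀ (M *ᵥ D) := by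
  funext p
  obtain ⟨a, k⟩ := p
  simp only [Matrix.mulVec, dotProduct, slc, Matrix.kroneckerMap_apply, Fintype.sum_prod_type,
    Matrix.one_apply]
  by_cases hk : k = k₀
  · subst hk
    simp
  · simp only [if_neg hk]
    refine Finset.sum_eq_zero fun b _ => Finset.sum_eq_zero fun l _ => ?_
    by_cases hl : k = l
    · subst hl; simp [hk]
    · simp [hl]

omit [DecidableEq ι] in
private theorem kr_vm (k₀ : κ) (M : Matrix ι ι ℂ) (F : ι → ℂ) :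
    slc k₀ F ᵥ* Matrix.kroneckerMap (· * ·) M (1 : Matrix κ κ ℂ) = slc k₀ (F ᵥ* M) := by
  funext p
  obtain ⟨a, k⟩ := p
  simp only [Matrix.vecMul, dotProduct, slc, Matrix.kroneckerMap_apply, Fintype.sum_prod_type,
    Matrix.one_apply]
  by_cases hk : k = k₀
  · subst hk
    simp
  · simp only [if_neg hk]
    refine Finset.sum_eq_zero fun b _ => Finset.sum_eq_zero fun l _ => ?_
    by_cases hl : l = k
    · subst hl; simp [hk]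
    · simp [hl]

omit [DecidableEq ι] in
private theorem kr_dot (k₀ : κ) (F D : ι → ℂ) : slc k₀ F ⬝ᵥ slc k₀ D = F ⬝ᵥ D := by
  simp [dotProduct, slc, Fintype.sum_prod_type]

theorem quad_kr [Nonempty κ] (V : Rep φ i ι) (g h : FreeGroup (Fin N))
    (c : FreeGroup (Fin N) → ℂ) (D1 F1 D2 F2 : ι → ℂ) (hq : Quad V g h c D1 F1 D2 F2) :
    ∃ D1' F1' D2' F2' : ι × κ → ℂ, Quad (V.kr (Rep.cst φ i (1 : U κ))) g h c D1' F1' D2' F2' := by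
  obtain ⟨k₀⟩ := ‹Nonempty κ›
  have hZ : ∀ g, (((V.kr (Rep.cst φ i (1 : U κ))).Z g : U (ι × κ)) :
      Matrix (ι × κ) (ι × κ) ℂ) =
      Matrix.kroneckerMap (· * ·) ((V.Z g : U ι) : Matrix ι ι ℂ) (1 : Matrix κ κ ℂ) := by
    intro g
    rw [Rep.Z_kr, Rep.Z_cst]
    rfl
  have hM : ∀ w, (V.kr (Rep.cst φ i (1 : U κ))).mat w =
      Matrix.kroneckerMap (· * ·) (V.mat w) (1 : Matrix κ κ ℂ) := fun w => rfl
  refine ⟨slc k₀ D1, slc k₀ F1, slc k₀ D2, slc k₀ F2, ?_, ?_, ?_, ?_, ?_, ?_, ?_, ?_⟩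
  · rw [hZ, kr_mv, hq.d1]
  · rw [hZ, kr_vm, hq.f1]
  · rw [hZ, kr_mv, hq.d2]
  · rw [hZ, kr_vm, hq.f2]
  · intro w; rw [hM, kr_mv, kr_dot, hq.c1]
  · intro w; rw [hM, kr_mv, kr_dot, hq.c2]
  · intro w; rw [hM, kr_mv, kr_dot, hq.m1]
  · intro w; rw [hM, kr_mv, kr_dot, hq.m2]

end Pool.Agent.Helper45.HS
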