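import Pool.Agent.Helper45.HS.Perm
import Pool.Agent.Helper45.HS.Ops

/-!
# HS-07 Chi: two characters

`r` a nonzero complex number, `R : U Unit` the scalar matrix `r`. `a = - toAdd (α g)`, `m = toAdd (α (g⁻¹ h))`.
`W₁ = Rep.ab i α hα R (R ^ a)` : `Z g = R ^ (α g + a) = 1`, `Z h = R ^ (α h + a) = R ^ m`.
`W₂ = Rep.ab i α hα R⁻¹ (R ^ (m - a))` : `Z g = R ^ (- α g + m - a) = R ^ m`, `Z h = R ^ (- α h + m - a) = 1`.
`W = W₁.sum W₂`: matrices `sumU (1, R ^ m)` and `sumU (R ^ m, 1)`, exchanged by `Sum.swap` (`conj_of_equiv` with `Equiv.sumComm`, or `S` by hand).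
Traces: `tr w = r ^ (α w) + r ^ (- α w)` (`Rep.tr_sum`; the trace of a `Unit × Unit` matrix is its entry; `U Unit ≃ ℂˣ`: the entry of
`R ^ k` is `r ^ k`, e.g. `R = Units.map (Matrix.scalar Unit).toMonoidHom r` and `map_zpow`).
-/

set_option autoImplicit false

namespace Pool.Agent.Helper45.HS

open Matrix

variable {N : ℕ} {φ : FreeGroup (Fin N) →* FreeGroup (Fin N)} {i : ℕ}

/-- the scalar `1 × 1` matrix -/
noncomputable def chiU : ℂˣ →* U Unit := Units.map (Matrix.scalar Unit : ℂ →+* Matrix Unit Unit ℂ).toMonoidHom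

theorem chiU_apply (s : ℂˣ) (p q : Unit) : ((chiU s : U Unit) : Matrix Unit Unit ℂ) p q = (s : ℂ) := by
  cases p; cases q
  simp [chiU]

theorem chi_tr (α : FreeGroup (Fin N) →* Multiplicative ℤ)
    (hα : ∀ j : Fin N, (j : ℕ) < i → α (φ (FreeGroup.of j)) = α (FreeGroup.of j)) (r s : ℂˣ)
    (hc : Commute (chiU r) (chiU s)) (w : FreeGroup (Fin N)) :
    (Rep.ab i α hα (chiU r) (chiU s) hc).tr w = ((r ^ Multiplicative.toAdd (α w) : ℂˣ) : ℂ) := by
  have h : (Rep.ab i α hα (chiU r) (chiU s) hc).ρ w = chiU (r ^ Multiplicative.toAdd (α w)) := by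
    rw [map_zpow]
    rfl
  unfold Rep.tr Rep.mat
  rw [h, Matrix.trace]
  simp only [Matrix.diag_apply, chiU_apply, Finset.univ_unique, Finset.sum_singleton]

theorem chi_Z (α : FreeGroup (Fin N) →* Multiplicative ℤ)
    (hα : ∀ j : Fin N, (j : ℕ) < i → α (φ (FreeGroup.of j)) = α (FreeGroup.of j)) (r s : ℂˣ)
    (hc : Commute (chiU r) (chiU s)) (w : FreeGroup (Fin N)) :
    (Rep.ab i α hα (chiU r) (chiU s) hc).Z w = chiU (r ^ Multiplicative.toAdd (α w) * s) := by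
  rw [map_mul, map_zpow]
  rfl

theorem chi_pair (g h : FreeGroup (Fin N)) (α : FreeGroup (Fin N) →* Multiplicative ℤ)
    (hα : ∀ j : Fin N, (j : ℕ) < i → α (φ (FreeGroup.of j)) = α (FreeGroup.of j)) (r : ℂˣ) :
    ∃ W : Rep φ i (Unit ⊕ Unit), (∀ w, W.tr w = ((r ^ Multiplicative.toAdd (α w) : ℂˣ) : ℂ) +
      ((r ^ (-Multiplicative.toAdd (α w)) : ℂˣ) : ℂ)) ∧ Matched W g h := by
  have hcom : ∀ s t : ℂˣ, Commute (chiU s) (chiU t) := fun s t => (Commute.all s t).map chiU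
  set x := Multiplicative.toAdd (α g) with hx
  set y := Multiplicative.toAdd (α h) with hy
  refine ⟨(Rep.ab i α hα (chiU r) (chiU (r ^ (-x))) (hcom _ _)).sum
    (Rep.ab i α hα (chiU r⁻¹) (chiU (r ^ y)) (hcom _ _)), ?_, ?_⟩
  · intro w
    rw [Rep.tr_sum, chi_tr, chi_tr, _root_.inv_zpow']
  · unfold Matched
    rw [Rep.Z_sum, Rep.Z_sum, chi_Z, chi_Z, chi_Z, chi_Z]
    apply conj_of_equiv (Equiv.sumComm Unit Unit)
    have e1 : r⁻¹ ^ x * r ^ y = r ^ y * r ^ (-x) := by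
      rw [_root_.inv_zpow', mul_comm]
    have e2 : r ^ x * r ^ (-x) = 1 := by
      rw [← _root_.zpow_add, add_neg_cancel, _root_.zpow_zero]
    have e3 : r⁻¹ ^ y * r ^ y = 1 := by
      rw [_root_.inv_zpow', ← _root_.zpow_add, neg_add_cancel, _root_.zpow_zero]
    rw [e1, e2, e3]
    intro p q
    rcases p with p | p <;> rcases q with q | q <;> rfl

end Pool.Agent.Helper45.HS
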