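import Pool.Agent.Helper45.HS.Rel

/-!
# HS-10 Words: cyclically reduced forms

Every `w ∈ L N (i + 1)` is conjugate (in the free group) to an element of `L N i`, or to `wv b l` (`b = of i`) with a nonempty list `l` of syllables with
entries in `L N i`, such that for consecutive syllables `p, q` it is not the case that `q.1 = 1` and `q.2 ≠ p.2` (no cancellation
`b^ε 1 b^-ε`), and the same for the last and the first syllable.
Proof. (1) Every `w ∈ L N (i + 1)` is `wv b l * g` with entries of `l` and `g` in `L N i`: `Subgroup.closure_induction` (left or right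
multiplication by letters and inverses; a letter `< i` is absorbed in `g`, the letter `b` is appended as `(g, true)` with the new `g = 1`, `b⁻¹` as `(g, false)`;
`Subgroup.closure_induction_right`-type principle; the letters with index `< i + 1` are those `< i` and `b`).
(2) So `w` is conjugate to `wv b l` with first syllable `(g * g₁, ε₁)` if `l ≠ []` (conjugate by `g`), and to `g ∈ L N i` if `l = []`.
(3) Among all lists `l` with entries in `L N i` such that `w` is conjugate to `wv b l` choose one of minimal length (if there is none
we are in the first case). If it is `[]` then `w` is conjugate to `1 ∈ L N i`. If it is nonempty and a consecutive pair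
`p = (g, ε), q = (1, ε')`, `ε' ≠ ε` occurs, then `g b^ε 1 b^ε' = g`: the two syllables can be removed and `g` is multiplied into the next syllable,
or, if there is no next syllable, into the first one after conjugation (if there is no syllable left then `w` is conjugate to
`g ∈ L N i`: first case). Cyclic pair: conjugate cyclically (`wv b (p :: l) = p.1 * b^± * wv b l` is conjugate to `wv b l * (p.1 * b^±) =
wv b (l ++ [p])`), reducing it to the previous situation; for length 1 there is nothing to do because `q.2 ≠ p.2` is impossible for `p = q`.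
It is convenient to prove: (*) if `l = l₁ ++ p :: q :: l₂` has a cancelling pair then `wv b l` is conjugate to an element of `L N i` or to `wv b l'` with `l'`
shorter with entries in `L N i`; by cyclic rotation one may assume `l₁ = []`: then `l = (g, ε) :: (1, ε') :: l₂` and `wv b l = g * wv b l₂`: if
`l₂ = []` it is `g`, else multiply `g` into the first syllable of `l₂`.
-/

set_option autoImplicit false

namespace Pool.Agent.Helper45.HS

private theorem wv_cons {G : Type} [Group G] (b : G) (p : G × Bool) (l : List (G × Bool)) :
    wv b (p :: l) = p.1 * (if p.2 then b else b⁻¹) * wv b l := by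
  unfold wv
  rw [List.map_cons, List.prod_cons]

private theorem wv_nil {G : Type} [Group G] (b : G) : wv b [] = 1 := by
  unfold wv
  rw [List.map_nil, List.prod_nil]

private theorem wv_append {G : Type} [Group G] (b : G) (l l' : List (G × Bool)) :
    wv b (l ++ l') = wv b l * wv b l' := by
  unfold wv
  rw [List.map_append, List.prod_append]

private theorem conj_swap {G : Type} [Group G] (x y : G) : IsConj (x * y) (y * x) :=
  isConj_iff.mpr ⟨y, by group⟩

private theorem norm_form {N : ℕ} (i : Fin N) (w : FreeGroup (Fin N)) (hw : w ∈ L N ((i : ℕ) + 1)) :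
    ∃ (l : List (FreeGroup (Fin N) × Bool)) (g : FreeGroup (Fin N)), (∀ p ∈ l, p.1 ∈ L N (i : ℕ)) ∧
      g ∈ L N (i : ℕ) ∧ w = wv (FreeGroup.of i) l * g := by
  unfold L at hw
  induction hw using Subgroup.closure_induction_right with
  | one =>
    refine ⟨[], 1, ?_, Subgroup.one_mem _, ?_⟩
    · intro p hp
      exact absurd hp List.not_mem_nil
    · rw [wv_nil, mul_one]
  | mul_right x hx y hy ih =>
    obtain ⟨l, g, hl, hg, hxe⟩ := ih
    obtain ⟨j, hj, rfl⟩ := hy
    rcases Nat.lt_succ_iff_lt_or_eq.mp hj with h | h
    · refine ⟨l, g * FreeGroup.of j, hl, Subgroup.mul_mem _ hg (Subgroup.subset_closure ⟨j, h, rfl⟩), ?_⟩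
      rw [hxe, mul_assoc]
    · have hji : j = i := Fin.ext h
      refine ⟨l ++ [(g, true)], 1, ?_, Subgroup.one_mem _, ?_⟩
      · intro p hp
        rcases List.mem_append.mp hp with h1 | h1
        · exact hl p h1
        · rw [List.mem_singleton.mp h1]; exact hg
      · rw [wv_append, wv_cons, wv_nil, hji, hxe, mul_one, mul_one, mul_assoc]
        rfl
  | mul_inv_cancel x hx y hy ih =>
    obtain ⟨l, g, hl, hg, hxe⟩ := ih
    obtain ⟨j, hj, rfl⟩ := hy
    rcases Nat.lt_succ_iff_lt_or_eq.mp hj with h | h
    · refine ⟨l, g * (FreeGroup.of j)⁻¹, hl, Subgroup.mul_mem _ hg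
        (Subgroup.inv_mem _ (Subgroup.subset_closure ⟨j, h, rfl⟩)), ?_⟩
      rw [hxe, mul_assoc]
    · have hji : j = i := Fin.ext h
      refine ⟨l ++ [(g, false)], 1, ?_, Subgroup.one_mem _, ?_⟩
      · intro p hp
        rcases List.mem_append.mp hp with h1 | h1
        · exact hl p h1
        · rw [List.mem_singleton.mp h1]; exact hg
      · rw [wv_append, wv_cons, wv_nil, hji, hxe, mul_one, mul_one, mul_assoc]
        rfl

theorem cyc_form {N : ℕ} (i : Fin N) (w : FreeGroup (Fin N)) (hw : w ∈ L N ((i : ℕ) + 1)) :
    (∃ w' ∈ L N (i : ℕ), IsConj w w') ∨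
    ∃ (l : List (FreeGroup (Fin N) × Bool)) (hl : l ≠ []), (∀ p ∈ l, p.1 ∈ L N (i : ℕ)) ∧
      List.IsChain (fun p q : FreeGroup (Fin N) × Bool => ¬ (q.1 = 1 ∧ q.2 ≠ p.2)) l ∧
      ¬ ((l.head hl).1 = 1 ∧ (l.head hl).2 ≠ (l.getLast hl).2) ∧
      IsConj w (wv (FreeGroup.of i) l) := by
  have key : ∀ n : ℕ, ∀ l : List (FreeGroup (Fin N) × Bool), l.length = n →
      (∀ p ∈ l, p.1 ∈ L N (i : ℕ)) → IsConj w (wv (FreeGroup.of i) l) →
      ((∃ w' ∈ L N (i : ℕ), IsConj w w') ∨
        ∃ (l : List (FreeGroup (Fin N) × Bool)) (hl : l ≠ []), (∀ p ∈ l, p.1 ∈ L N (i : ℕ)) ∧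
          List.IsChain (fun p q : FreeGroup (Fin N) × Bool => ¬ (q.1 = 1 ∧ q.2 ≠ p.2)) l ∧
          ¬ ((l.head hl).1 = 1 ∧ (l.head hl).2 ≠ (l.getLast hl).2) ∧
          IsConj w (wv (FreeGroup.of i) l)) := by
    intro n
    induction n using Nat.strong_induction_on with
    | _ n ih =>
      -- a cancelling pair at the beginning
      have red : ∀ (p q : FreeGroup (Fin N) × Bool) (l₂ : List (FreeGroup (Fin N) × Bool)),
          (p :: q :: l₂).length = n → (∀ r ∈ p :: q :: l₂, r.1 ∈ L N (i : ℕ)) →
          IsConj w (wv (FreeGroup.of i) (p :: q :: l₂)) → q.1 = 1 → q.2 ≠ p.2 →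
          ((∃ w' ∈ L N (i : ℕ), IsConj w w') ∨
            ∃ (l : List (FreeGroup (Fin N) × Bool)) (hl : l ≠ []), (∀ p ∈ l, p.1 ∈ L N (i : ℕ)) ∧
              List.IsChain (fun p q : FreeGroup (Fin N) × Bool => ¬ (q.1 = 1 ∧ q.2 ≠ p.2)) l ∧
              ¬ ((l.head hl).1 = 1 ∧ (l.head hl).2 ≠ (l.getLast hl).2) ∧
              IsConj w (wv (FreeGroup.of i) l)) := by
        intro p q l₂ hn hm hc hq1 hq2
        have h1 : wv (FreeGroup.of i) (p :: q :: l₂) = p.1 * wv (FreeGroup.of i) l₂ := by
          rw [wv_cons, wv_cons, hq1]
          obtain ⟨g, ε⟩ := p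
          obtain ⟨g', ε'⟩ := q
          cases ε <;> cases ε'
          · exact absurd rfl hq2
          · change g * (FreeGroup.of i)⁻¹ * (1 * FreeGroup.of i * _) = g * _
            group
          · change g * FreeGroup.of i * (1 * (FreeGroup.of i)⁻¹ * _) = g * _
            group
          · exact absurd rfl hq2
        rw [h1] at hc
        have hp : p.1 ∈ L N (i : ℕ) := hm p List.mem_cons_self
        cases l₂ with
        | nil =>
          rw [wv_nil, mul_one] at hc
          exact Or.inl ⟨p.1, hp, hc⟩
        | cons r l₃ =>
          have h2 : p.1 * wv (FreeGroup.of i) (r :: l₃) = wv (FreeGroup.of i) ((p.1 * r.1, r.2) :: l₃) := by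
            rw [wv_cons, wv_cons, mul_assoc, mul_assoc, mul_assoc]
          rw [h2] at hc
          refine ih ((p.1 * r.1, r.2) :: l₃).length ?_ _ rfl ?_ hc
          · rw [← hn]
            simp only [List.length_cons]
            omega
          · intro s hs
            rcases List.mem_cons.mp hs with h3 | h3
            · rw [h3]
              exact Subgroup.mul_mem _ hp (hm r (List.mem_cons_of_mem _ (List.mem_cons_of_mem _
                List.mem_cons_self)))
            · exact hm s (List.mem_cons_of_mem _ (List.mem_cons_of_mem _ (List.mem_cons_of_mem _ h3)))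
      intro l hn hm hc
      by_cases hl : l = []
      · left
        refine ⟨1, Subgroup.one_mem _, ?_⟩
        rw [hl, wv_nil] at hc
        exact hc
      by_cases hch : List.IsChain (fun p q : FreeGroup (Fin N) × Bool => ¬ (q.1 = 1 ∧ q.2 ≠ p.2)) l
      · by_cases hcy : (l.head hl).1 = 1 ∧ (l.head hl).2 ≠ (l.getLast hl).2
        · obtain ⟨q, hq⟩ : ∃ q, q = l.getLast hl := ⟨_, rfl⟩
          obtain ⟨l₀, hl₀⟩ : ∃ l₀, l₀ = l.dropLast := ⟨_, rfl⟩
          have h1 : l = l₀ ++ [q] := by rw [hl₀, hq, List.dropLast_append_getLast]
          cases l₀ with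
          | nil =>
            exfalso
            apply hcy.2
            subst h1
            rfl
          | cons p l' =>
            subst h1
            have h2 : (p :: l' ++ [q]).head hl = p := rfl
            rw [h2, ← hq] at hcy
            refine red q p l' ?_ ?_ ?_ hcy.1 (fun h => hcy.2 h)
            · rw [← hn]
              simp only [List.length_cons, List.length_append, List.length_nil]
            · intro r hr
              apply hm
              rcases List.mem_cons.mp hr with h3 | h3
              · rw [h3]
                exact List.mem_append_right _ List.mem_cons_self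
              · exact List.mem_append_left _ h3
            · have h3 : q :: p :: l' = [q] ++ (p :: l') := rfl
              rw [h3, wv_append]
              rw [wv_append] at hc
              exact hc.trans (conj_swap _ _)
        · exact Or.inr ⟨l, hl, hm, hch, hcy, hc⟩
      · rw [List.isChain_iff_forall_rel_of_append_cons_cons] at hch
        push Not at hch
        obtain ⟨p, q, l₁, l₂, hll, hq1, hq2⟩ := hch
        subst hll
        refine red p q (l₂ ++ l₁) ?_ ?_ ?_ hq1 hq2
        · rw [← hn]
          simp only [List.length_cons, List.length_append]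
          omega
        · intro r hr
          apply hm
          rcases List.mem_cons.mp hr with h3 | h3
          · exact List.mem_append_right _ (h3 ▸ List.mem_cons_self)
          rcases List.mem_cons.mp h3 with h4 | h4
          · exact List.mem_append_right _ (List.mem_cons_of_mem _ (h4 ▸ List.mem_cons_self))
          rcases List.mem_append.mp h4 with h5 | h5
          · exact List.mem_append_right _ (List.mem_cons_of_mem _ (List.mem_cons_of_mem _ h5))
          · exact List.mem_append_left _ h5
        · have h3 : p :: q :: (l₂ ++ l₁) = (p :: q :: l₂) ++ l₁ := rfl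
          rw [h3, wv_append]
          rw [wv_append] at hc
          exact hc.trans (conj_swap _ _)
  obtain ⟨l, g, hl, hg, hwe⟩ := norm_form i w hw
  cases l with
  | nil =>
    left
    rw [wv_nil, one_mul] at hwe
    exact ⟨g, hg, hwe ▸ IsConj.refl _⟩
  | cons p l =>
    refine key ((g * p.1, p.2) :: l).length _ rfl ?_ ?_
    · intro r hr
      rcases List.mem_cons.mp hr with h3 | h3
      · rw [h3]
        exact Subgroup.mul_mem _ hg (hl p List.mem_cons_self)
      · exact hl r (List.mem_cons_of_mem _ h3)
    · have h1 : wv (FreeGroup.of i) ((g * p.1, p.2) :: l) = g * wv (FreeGroup.of i) (p :: l) := by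
        rw [wv_cons, wv_cons, mul_assoc, mul_assoc, mul_assoc]
      rw [h1, hwe]
      exact conj_swap _ _

end Pool.Agent.Helper45.HS
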