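import Pool.Agent.Helper45.HS.Lead
import Pool.Agent.Helper45.HS.Words
import Pool.Agent.Helper45.HS.Avoid

/-!
# HS-11 Core: the rank one extension

`V` a representation of level `i` (a letter of `Fin N`, `b = of i`), `X = Z (u⁻¹)`, `Y = Z v`, `X S = S Y`, vectors `D⁺, D⁻` and functionals `F⁺, F⁻`.
For `T₀ : ℂ` put `B(T₀) = (1 + T₀ D⁺ ⊗ F⁺) S (1 + T₀ D⁻ ⊗ F⁻)` with inverse `(1 - T₀ D⁻ ⊗ F⁻) S⁻¹ (1 - T₀ D⁺ ⊗ F⁺)` (`F⁺ ⬝ D⁺ = 0 = F⁻ ⬝ D⁻`;
`D ⊗ F = vecMulVec D F`). Then `X B = B Y`: `X (D⁺ ⊗ F⁺) = D⁺ ⊗ F⁺ = (D⁺ ⊗ F⁺) X` because `X D⁺ = D⁺`, `F⁺ X = F⁺`, same for `Y` and `-`.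
New homomorphism: `ρ' = FreeGroup.lift (j ↦ if j = i then B(T₀) else ρ (of j))`, same `T`. `ρ' = ρ` on `L N i` (`agree`). Relation of level
`i + 1`: for `j < i` because `φ (of j) ∈ L N i`; for `j = i`: `ρ'(φ b) = ρ(u) B ρ(v)` and `X B = B Y` i.e. `ρ(u)⁻¹ T B = B ρ(v) T`, so
`ρ(u) B ρ(v) = T B T⁻¹`.
Trace condition: polynomial version: `B true = (1 + X D⁺ ⊗ F⁺) S (1 + X D⁻ ⊗ F⁻)`, `B false = (1 - X D⁻ ⊗ F⁻) S⁻¹ (1 - X D⁺ ⊗ F⁺)` over `ℂ[X]`
(degree `≤ 2`; coefficient at `X ^ 2`: `(F⁺ ⬝ S D⁻) D⁺ ⊗ F⁻`, resp. `(F⁻ ⬝ S⁻¹ D⁺) D⁻ ⊗ F⁺`), evaluated at `T₀` they are `B(T₀)`, `B(T₀)⁻¹`.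
`lead_ne` with `M = V.mat`, `D true = D⁺`, `F true = F⁻`, `D false = D⁻`, `F false = F⁺`: the pairing `F p.2 ⬝ᵥ (M q.1 *ᵥ D q.2)` is
`F⁻ (g D⁺)` (`true, true`), `F⁻ (g D⁻)` (`true, false`), `F⁺ (g D⁺)` (`false, true`), `F⁺ (g D⁻)` (`false, false`): nonzero by the hypotheses,
since `g ≠ 1` if `q.2 ≠ p.2`. So for a list as in `cyc_form` the polynomial `p_l = trace (∏ ...)` is not constant, `p_l - C (card ι) ≠ 0`
(its coefficient at `2 * length > 0` is nonzero). `avoid` for the countable type of the lists with these properties: choose `T₀` with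
`p_l(T₀) ≠ card ι` for all `l`; `p_l(T₀)` is the trace of `ρ' (wv b l)` (apply the ring homomorphism `evalRingHom T₀` entrywise, `ρ' = ρ` on the
entries of `l`). Now for `1 ≠ w ∈ L N (i + 1)`: conjugate to `w' ∈ L N i`, `w' ≠ 1`: `tr ρ'(w) = tr ρ(w') ≠ card ι` (`V.Sep`), or to `wv b l`.
(The trace is invariant under conjugation: `Matrix.trace_mul_comm` for `ρ' (c w c⁻¹)`.)
-/

set_option autoImplicit false

namespace Pool.Agent.Helper45.HS

open Matrix

section Aux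

variable {ι : Type} [Fintype ι] [DecidableEq ι]

private theorem vv_mul (D F D' F' : ι → ℂ) :
    vecMulVec D F * vecMulVec D' F' = (F ⬝ᵥ D') • vecMulVec D F' := by
  ext a b
  simp only [Matrix.mul_apply, vecMulVec_apply, Matrix.smul_apply, smul_eq_mul, dotProduct,
    Finset.sum_mul]
  refine Finset.sum_congr rfl fun k _ => ?_
  ring

private theorem vv_sq (D F : ι → ℂ) (h : F ⬝ᵥ D = 0) : vecMulVec D F * vecMulVec D F = 0 := by
  rw [vv_mul, h, zero_smul]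

/-- The unipotent unit `1 + t D ⊗ F`. -/
private def E (D F : ι → ℂ) (h : F ⬝ᵥ D = 0) (t : ℂ) : U ι where
  val := 1 + t • vecMulVec D F
  inv := 1 - t • vecMulVec D F
  val_inv := by
    rw [mul_sub, add_mul, add_mul, mul_one, one_mul, mul_one, smul_mul_smul_comm, vv_sq D F h,
      smul_zero]
    abel
  inv_val := by
    rw [mul_add, sub_mul, sub_mul, mul_one, one_mul, mul_one, smul_mul_smul_comm, vv_sq D F h,
      smul_zero]
    abel

private theorem E_comm (D F : ι → ℂ) (h : F ⬝ᵥ D = 0) (t : ℂ) (X : U ι)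
    (hD : (X : Matrix ι ι ℂ) *ᵥ D = D) (hF : F ᵥ* (X : Matrix ι ι ℂ) = F) :
    X * E D F h t = E D F h t * X := by
  apply Units.ext
  change (X : Matrix ι ι ℂ) * (1 + t • vecMulVec D F) = (1 + t • vecMulVec D F) * (X : Matrix ι ι ℂ)
  rw [mul_add, add_mul, mul_one, one_mul, Matrix.mul_smul, Matrix.smul_mul, mul_vecMulVec, hD,
    vecMulVec_mul, hF]

/-- polynomial version of `1 + c t D ⊗ F`. -/
private noncomputable def EP (D F : ι → ℂ) (c : ℂ) : Matrix ι ι (Polynomial ℂ) :=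
  Matrix.of fun a b => Polynomial.C ((1 : Matrix ι ι ℂ) a b) + Polynomial.C (c * (D a * F b)) * Polynomial.X

private theorem EP_deg (D F : ι → ℂ) (c : ℂ) (a b : ι) : (EP D F c a b).natDegree ≤ 1 := by
  change (Polynomial.C ((1 : Matrix ι ι ℂ) a b) +
    Polynomial.C (c * (D a * F b)) * Polynomial.X).natDegree ≤ 1
  refine (Polynomial.natDegree_add_le _ _).trans ?_
  refine max_le ?_ ?_
  · rw [Polynomial.natDegree_C]; exact Nat.zero_le _
  · exact ((Polynomial.natDegree_C_mul_le _ _).trans Polynomial.natDegree_X_le)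

private theorem EP_coeff (D F : ι → ℂ) (c : ℂ) (a b : ι) :
    (EP D F c a b).coeff 1 = c * (D a * F b) := by
  change (Polynomial.C ((1 : Matrix ι ι ℂ) a b) +
    Polynomial.C (c * (D a * F b)) * Polynomial.X).coeff 1 = _
  rw [Polynomial.coeff_add, Polynomial.coeff_C_mul, Polynomial.coeff_X_one, mul_one,
    Polynomial.coeff_C_of_ne_zero one_ne_zero, zero_add]

private theorem EP_eval (D F : ι → ℂ) (c t : ℂ) :
    (EP D F c).map (Polynomial.evalRingHom t) = 1 + (c * t) • vecMulVec D F := by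
  ext a b
  change Polynomial.eval t (Polynomial.C ((1 : Matrix ι ι ℂ) a b) +
    Polynomial.C (c * (D a * F b)) * Polynomial.X) = (1 : Matrix ι ι ℂ) a b + (c * t) * (D a * F b)
  rw [Polynomial.eval_add, Polynomial.eval_mul, Polynomial.eval_C, Polynomial.eval_C,
    Polynomial.eval_X]
  ring

private theorem prod_deg (A B : Matrix ι ι (Polynomial ℂ)) (m n : ℕ)
    (hA : ∀ a b, (A a b).natDegree ≤ m) (hB : ∀ a b, (B a b).natDegree ≤ n) (a b : ι) :
    ((A * B) a b).natDegree ≤ m + n := by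
  rw [Matrix.mul_apply]
  refine Polynomial.natDegree_sum_le_of_forall_le _ _ fun k _ => ?_
  exact Polynomial.natDegree_mul_le.trans (Nat.add_le_add (hA a k) (hB k b))

private theorem prod_coeff (A B : Matrix ι ι (Polynomial ℂ)) (m n : ℕ)
    (hA : ∀ a b, (A a b).natDegree ≤ m) (hB : ∀ a b, (B a b).natDegree ≤ n) (a b : ι) :
    ((A * B) a b).coeff (m + n) = ∑ k, (A a k).coeff m * (B k b).coeff n := by
  rw [Matrix.mul_apply, Polynomial.finsetSum_coeff]
  exact Finset.sum_congr rfl fun k _ => Polynomial.coeff_mul_add_eq_of_natDegree_le (hA a k) (hB k b)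

/-- the polynomial matrix `(1 + c X D ⊗ F) S (1 + c X D' ⊗ F')`. -/
private noncomputable def BP (D F D' F' : ι → ℂ) (c : ℂ) (S : Matrix ι ι ℂ) :
    Matrix ι ι (Polynomial ℂ) :=
  EP D F c * S.map Polynomial.C * EP D' F' c

private theorem BP_deg (D F D' F' : ι → ℂ) (c : ℂ) (S : Matrix ι ι ℂ) (a b : ι) :
    (BP D F D' F' c S a b).natDegree ≤ 2 := by
  refine prod_deg _ _ 1 1 (fun a b => ?_) (EP_deg D' F' c) a b
  refine prod_deg _ _ 1 0 (EP_deg D F c) (fun a b => ?_) a b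
  rw [Matrix.map_apply, Polynomial.natDegree_C]

private theorem BP_coeff (D F D' F' : ι → ℂ) (c : ℂ) (hc : c * c = 1) (S : Matrix ι ι ℂ) (a b : ι) :
    (BP D F D' F' c S a b).coeff 2 = (F ⬝ᵥ (S *ᵥ D')) * (D a * F' b) := by
  have h1 : ∀ a b, ((EP D F c * S.map Polynomial.C) a b).natDegree ≤ 1 := fun a b =>
    prod_deg _ _ 1 0 (EP_deg D F c) (fun a b => by
      rw [Matrix.map_apply, Polynomial.natDegree_C]) a b
  have h2 : ∀ a b, ((EP D F c * S.map Polynomial.C) a b).coeff 1 = ∑ k, c * (D a * F k) * S k b := by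
    intro a b
    have := prod_coeff (EP D F c) (S.map Polynomial.C) 1 0 (EP_deg D F c) (fun a b => by
      rw [Matrix.map_apply, Polynomial.natDegree_C]) a b
    rw [add_zero] at this
    rw [this]
    refine Finset.sum_congr rfl fun k _ => ?_
    rw [EP_coeff, Matrix.map_apply, Polynomial.coeff_C_zero]
  have h3 := prod_coeff (EP D F c * S.map Polynomial.C) (EP D' F' c) 1 1 h1 (EP_deg D' F' c) a b
  change ((EP D F c * S.map Polynomial.C * EP D' F' c) a b).coeff (1 + 1) = _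
  rw [h3]
  simp only [h2, EP_coeff, dotProduct, mulVec, Finset.sum_mul, Finset.mul_sum]
  rw [Finset.sum_comm]
  refine Finset.sum_congr rfl fun k _ => Finset.sum_congr rfl fun l _ => ?_
  linear_combination (F k * S k l * D' l * (D a * F' b)) * hc

private theorem BP_eval (D F D' F' : ι → ℂ) (c t : ℂ) (S : Matrix ι ι ℂ) :
    (BP D F D' F' c S).map (Polynomial.evalRingHom t) =
      (1 + (c * t) • vecMulVec D F) * S * (1 + (c * t) • vecMulVec D' F') := by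
  have h : (S.map Polynomial.C).map (Polynomial.evalRingHom t) = S := by
    ext a b
    change Polynomial.eval t (Polynomial.C (S a b)) = S a b
    rw [Polynomial.eval_C]
  unfold BP
  rw [Matrix.map_mul, Matrix.map_mul, EP_eval, EP_eval, h]

end Aux

theorem core {N : ℕ} {φ : FreeGroup (Fin N) →* FreeGroup (Fin N)} (i : Fin N) {ι : Type} [Fintype ι]
    [DecidableEq ι] [Nonempty ι] (V : Rep φ (i : ℕ) ι) (hV : V.Sep) (u v : FreeGroup (Fin N))
    (hu : u ∈ L N (i : ℕ)) (hv : v ∈ L N (i : ℕ))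
    (hφ : φ (FreeGroup.of i) = u * FreeGroup.of i * v)
    (hL : ∀ j : Fin N, (j : ℕ) < (i : ℕ) → φ (FreeGroup.of j) ∈ L N (i : ℕ))
    (S : U ι) (hS : V.Z u⁻¹ * S = S * V.Z v) (Dp Fp Dm Fm : ι → ℂ)
    (hDp : ((V.Z u⁻¹ : U ι) : Matrix ι ι ℂ) *ᵥ Dp = Dp) (hFp : Fp ᵥ* ((V.Z u⁻¹ : U ι) : Matrix ι ι ℂ) = Fp)
    (hDm : ((V.Z v : U ι) : Matrix ι ι ℂ) *ᵥ Dm = Dm) (hFm : Fm ᵥ* ((V.Z v : U ι) : Matrix ι ι ℂ) = Fm)
    (h0p : Fp ⬝ᵥ Dp = 0) (h0m : Fm ⬝ᵥ Dm = 0)
    (hpp : ∀ w ∈ L N (i : ℕ), w ≠ 1 → Fp ⬝ᵥ (V.mat w *ᵥ Dp) ≠ 0)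
    (hmm : ∀ w ∈ L N (i : ℕ), w ≠ 1 → Fm ⬝ᵥ (V.mat w *ᵥ Dm) ≠ 0)
    (hmp : ∀ w ∈ L N (i : ℕ), Fm ⬝ᵥ (V.mat w *ᵥ Dp) ≠ 0)
    (hpm : ∀ w ∈ L N (i : ℕ), Fp ⬝ᵥ (V.mat w *ᵥ Dm) ≠ 0)
    (hS1 : Fp ⬝ᵥ ((S : Matrix ι ι ℂ) *ᵥ Dm) ≠ 0)
    (hS2 : Fm ⬝ᵥ (((S⁻¹ : U ι) : Matrix ι ι ℂ) *ᵥ Dp) ≠ 0) :
    HasSep φ ((i : ℕ) + 1) := by
  classical
  obtain ⟨b, hb⟩ : ∃ b : FreeGroup (Fin N), b = FreeGroup.of i := ⟨_, rfl⟩
  -- the polynomial matrices
  let BB : Bool → Matrix ι ι (Polynomial ℂ) := fun ε =>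
    if ε then BP Dp Fp Dm Fm 1 (S : Matrix ι ι ℂ) else BP Dm Fm Dp Fp (-1) ((S⁻¹ : U ι) : Matrix ι ι ℂ)
  let DD : Bool → ι → ℂ := fun ε => if ε then Dp else Dm
  let FF : Bool → ι → ℂ := fun ε => if ε then Fm else Fp
  let cc : Bool → ℂ := fun ε => if ε then Fp ⬝ᵥ ((S : Matrix ι ι ℂ) *ᵥ Dm)
    else Fm ⬝ᵥ (((S⁻¹ : U ι) : Matrix ι ι ℂ) *ᵥ Dp)
  have hcc : ∀ ε, cc ε ≠ 0 := by
    intro ε
    cases ε
    · exact hS2
    · exact hS1
  have hdeg : ∀ ε a b, (BB ε a b).natDegree ≤ 2 := by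
    intro ε a b
    cases ε
    · exact BP_deg _ _ _ _ _ _ a b
    · exact BP_deg _ _ _ _ _ _ a b
  have hlead : ∀ ε a b, (BB ε a b).coeff 2 = cc ε * (DD ε a * FF ε b) := by
    intro ε a b
    cases ε
    · exact BP_coeff _ _ _ _ _ (by norm_num) _ a b
    · exact BP_coeff _ _ _ _ _ (by norm_num) _ a b
  have hpair : ∀ (ε ε' : Bool) (g : FreeGroup (Fin N)), g ∈ L N (i : ℕ) → ¬ (g = 1 ∧ ε' ≠ ε) →
      FF ε ⬝ᵥ (V.mat g *ᵥ DD ε') ≠ 0 := by
    intro ε ε' g hg hn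
    cases ε <;> cases ε'
    · exact hpm g hg
    · exact hpp g hg fun h => hn ⟨h, by decide⟩
    · exact hmm g hg fun h => hn ⟨h, by decide⟩
    · exact hmp g hg
  -- good lists
  let Good : Type := {l : List (FreeGroup (Fin N) × Bool) // ∃ hl : l ≠ [],
    (∀ p ∈ l, p.1 ∈ L N (i : ℕ)) ∧
      List.IsChain (fun p q : FreeGroup (Fin N) × Bool => ¬ (q.1 = 1 ∧ q.2 ≠ p.2)) l ∧
      ¬ ((l.head hl).1 = 1 ∧ (l.head hl).2 ≠ (l.getLast hl).2)}
  let pol : Good → Polynomial ℂ := fun l =>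
    Matrix.trace (l.1.map fun p => (V.mat p.1).map Polynomial.C * BB p.2).prod -
      Polynomial.C (Fintype.card ι : ℂ)
  have hpol : ∀ l, pol l ≠ 0 := by
    rintro ⟨l, hl, hmem, hch, hcyc⟩ h0
    have h1 := lead_ne V.mat BB DD FF cc hcc hdeg hlead l hl ?_ ?_
    · apply h1
      have h2 : Matrix.trace (l.map fun p => (V.mat p.1).map Polynomial.C * BB p.2).prod =
          Polynomial.C (Fintype.card ι : ℂ) := sub_eq_zero.mp h0
      rw [h2]
      apply Polynomial.coeff_C_of_ne_zero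
      have h3 : 0 < l.length := List.length_pos_iff.mpr hl
      omega
    · have hch' : List.IsChain (fun p q : FreeGroup (Fin N) × Bool =>
          ¬ (q.1 = 1 ∧ q.2 ≠ p.2) ∧ q.1 ∈ L N (i : ℕ)) l := by
        clear h0 hcyc
        induction l with
        | nil => exact List.isChain_nil
        | cons p l ih =>
          cases l with
          | nil => exact List.isChain_singleton _
          | cons q l =>
            rw [List.isChain_cons_cons] at hch ⊢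
            refine ⟨⟨hch.1, hmem q (by simp)⟩, ih (List.cons_ne_nil _ _) (fun r hr => hmem r (List.mem_cons_of_mem _ hr)) hch.2⟩
      exact hch'.imp fun p q h => hpair p.2 q.2 q.1 h.2 h.1
    · exact hpair _ _ _ (hmem _ (List.head_mem hl)) hcyc
  have : Countable Good := Subtype.countable
  obtain ⟨t, ht⟩ := avoid pol hpol
  -- the unit
  obtain ⟨B, hB⟩ : ∃ B : U ι, B = E Dp Fp h0p t * S * E Dm Fm h0m t := ⟨_, rfl⟩
  have hBX : V.Z u⁻¹ * B = B * V.Z v := by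
    have h1 := E_comm Dp Fp h0p t (V.Z u⁻¹) hDp hFp
    have h2 := E_comm Dm Fm h0m t (V.Z v) hDm hFm
    rw [hB]
    calc V.Z u⁻¹ * (E Dp Fp h0p t * S * E Dm Fm h0m t)
        = (V.Z u⁻¹ * E Dp Fp h0p t) * S * E Dm Fm h0m t := by group
      _ = E Dp Fp h0p t * (V.Z u⁻¹ * S) * E Dm Fm h0m t := by rw [h1]; group
      _ = E Dp Fp h0p t * S * (V.Z v * E Dm Fm h0m t) := by rw [hS]; group
      _ = _ := by rw [h2]; group
  have hev : ∀ ε : Bool, (BB ε).map (Polynomial.evalRingHom t) =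
      (((if ε then B else B⁻¹) : U ι) : Matrix ι ι ℂ) := by
    intro ε
    cases ε
    · change (BP Dm Fm Dp Fp (-1) ((S⁻¹ : U ι) : Matrix ι ι ℂ)).map (Polynomial.evalRingHom t) =
        ((B⁻¹ : U ι) : Matrix ι ι ℂ)
      rw [BP_eval, hB, _root_.mul_inv_rev, _root_.mul_inv_rev, ← mul_assoc]
      change _ = (1 - t • vecMulVec Dm Fm) * ((S⁻¹ : U ι) : Matrix ι ι ℂ) * (1 - t • vecMulVec Dp Fp)
      rw [sub_eq_add_neg, sub_eq_add_neg, ← neg_smul, ← neg_smul, neg_one_mul]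
    · change (BP Dp Fp Dm Fm 1 (S : Matrix ι ι ℂ)).map (Polynomial.evalRingHom t) = (B : Matrix ι ι ℂ)
      rw [BP_eval, hB, one_mul]
      rfl
  -- the new homomorphism
  obtain ⟨ρ', hρ'⟩ : ∃ ρ' : FreeGroup (Fin N) →* U ι, ρ' = FreeGroup.lift
    (fun j => if j = i then B else V.ρ (FreeGroup.of j)) := ⟨_, rfl⟩
  have hρi : ρ' (FreeGroup.of i) = B := by rw [hρ', FreeGroup.lift_apply_of, if_pos rfl]
  have hρL : ∀ w ∈ L N (i : ℕ), ρ' w = V.ρ w := by
    apply agree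
    intro j hj
    rw [hρ', FreeGroup.lift_apply_of, if_neg]
    intro h
    rw [h] at hj
    exact lt_irrefl _ hj
  have hmemj : ∀ j : Fin N, (j : ℕ) < (i : ℕ) → FreeGroup.of j ∈ L N (i : ℕ) := fun j hj =>
    Subgroup.subset_closure ⟨j, hj, rfl⟩
  let V' : Rep φ ((i : ℕ) + 1) ι :=
    { ρ := ρ'
      T := V.T
      rel := fun j hj => by
        rcases Nat.lt_succ_iff_lt_or_eq.mp hj with h | h
        · rw [hρL _ (hL j h), hρL _ (hmemj j h)]
          exact V.rel j h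
        · have hji : j = i := Fin.ext h
          rw [hji, hφ, map_mul, map_mul, hρL u hu, hρL v hv, hρi]
          have h1 : (V.ρ u)⁻¹ * V.T * B = B * (V.ρ v * V.T) := by
            have := hBX
            unfold Rep.Z at this
            rw [map_inv] at this
            exact this
          calc V.ρ u * B * V.ρ v = V.ρ u * (B * (V.ρ v * V.T)) * V.T⁻¹ := by group
            _ = V.ρ u * ((V.ρ u)⁻¹ * V.T * B) * V.T⁻¹ := by rw [h1]
            _ = V.T * B * V.T⁻¹ := by group }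
  have htrc : ∀ w w' : FreeGroup (Fin N), IsConj w w' → V'.tr w = V'.tr w' := by
    intro w w' h
    obtain ⟨c, hc⟩ := isConj_iff.mp h
    rw [← hc]
    change Matrix.trace ((ρ' w : U ι) : Matrix ι ι ℂ) = Matrix.trace ((ρ' (c * w * c⁻¹) : U ι) : Matrix ι ι ℂ)
    rw [map_mul, map_mul, map_inv, Units.val_mul, Units.val_mul, Matrix.trace_mul_comm,
      ← Matrix.mul_assoc, Units.inv_mul, Matrix.one_mul]
  have hwv : ∀ l : List (FreeGroup (Fin N) × Bool), (∀ p ∈ l, p.1 ∈ L N (i : ℕ)) →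
      ((ρ' (wv (FreeGroup.of i) l) : U ι) : Matrix ι ι ℂ) =
        ((l.map fun p => (V.mat p.1).map Polynomial.C * BB p.2).prod).map (Polynomial.evalRingHom t) := by
    intro l
    induction l with
    | nil =>
      intro _
      change ((ρ' 1 : U ι) : Matrix ι ι ℂ) = (1 : Matrix ι ι (Polynomial ℂ)).map (Polynomial.evalRingHom t)
      rw [map_one, Units.val_one, Matrix.map_one _ (map_zero _) (map_one _)]
    | cons p l ih =>
      intro hp
      have h1 : wv (FreeGroup.of i) (p :: l) =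
          p.1 * (if p.2 then FreeGroup.of i else (FreeGroup.of i)⁻¹) * wv (FreeGroup.of i) l := by
        unfold wv
        rw [List.map_cons, List.prod_cons]
      rw [h1, List.map_cons, List.prod_cons, Matrix.map_mul, Matrix.map_mul,
        ← ih (fun q hq => hp q (List.mem_cons_of_mem _ hq)), hev, map_mul, map_mul, Units.val_mul,
        Units.val_mul, hρL _ (hp p (List.mem_cons_self ..))]
      have h2 : ((V.mat p.1).map Polynomial.C).map (Polynomial.evalRingHom t) = V.mat p.1 := by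
        ext a b
        change Polynomial.eval t (Polynomial.C (V.mat p.1 a b)) = V.mat p.1 a b
        rw [Polynomial.eval_C]
      have h3 : ρ' (if p.2 then FreeGroup.of i else (FreeGroup.of i)⁻¹) = if p.2 then B else B⁻¹ := by
        cases p.2
        · change ρ' (FreeGroup.of i)⁻¹ = B⁻¹
          rw [map_inv, hρi]
        · exact hρi
      rw [h2, h3]
      rfl
  refine ⟨ι, inferInstance, inferInstance, inferInstance, V', ?_⟩
  intro w hw hw1
  rcases cyc_form i w hw with ⟨w', hw', hc⟩ | ⟨l, hl, hmem, hch, hcyc, hc⟩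
  · rw [htrc w w' hc]
    have h1 : w' ≠ 1 := by
      intro h
      rw [h] at hc
      exact hw1 (isConj_one_left.mp hc)
    have h2 := hV w' hw' h1
    change Matrix.trace ((ρ' w' : U ι) : Matrix ι ι ℂ) ≠ _
    rw [hρL w' hw']
    exact h2
  · rw [htrc w _ hc]
    change Matrix.trace ((ρ' (wv (FreeGroup.of i) l) : U ι) : Matrix ι ι ℂ) ≠ _
    rw [hwv l hmem]
    have h1 := ht ⟨l, hl, hmem, hch, hcyc⟩
    intro h2
    apply h1
    change Polynomial.eval t (Matrix.trace (l.map fun p => (V.mat p.1).map Polynomial.C * BB p.2).prod -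
      Polynomial.C (Fintype.card ι : ℂ)) = 0
    rw [Polynomial.eval_sub, Polynomial.eval_C, sub_eq_zero, ← h2]
    change (Polynomial.evalRingHom t) (Matrix.trace _) = _
    unfold Matrix.trace
    rw [map_sum]
    rfl

end Pool.Agent.Helper45.HS
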