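import Mathlib

/-!
# Project HS (helper45): representations of `L_i ⋊ ⟨t⟩`

`L N i` is the subgroup of the free group on `Fin N` generated by the letters with index `< i`. A representation of level `i`
for `φ` on `ℂ^ι` is a homomorphism `ρ` of the whole free group into the units of the matrix ring, and a unit `T`, with
`ρ (φ b_j) = T ρ(b_j) T⁻¹` for `j < i`. We define sums, tensor products and the abelian representations.
-/

set_option autoImplicit false

namespace Pool.Agent.Helper45.HS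

open Matrix

/-- The subgroup generated by the letters with index `< i`. -/
def L (N i : ℕ) : Subgroup (FreeGroup (Fin N)) :=
  Subgroup.closure (FreeGroup.of '' {j : Fin N | (j : ℕ) < i})

/-- Unit matrices. -/
abbrev U (ι : Type) [Fintype ι] [DecidableEq ι] : Type := (Matrix ι ι ℂ)ˣ

/-- Kronecker product of unit matrices. -/
def kronU {ι κ : Type} [Fintype ι] [DecidableEq ι] [Fintype κ] [DecidableEq κ] :
    U ι × U κ →* U (ι × κ) where
  toFun p :=
    { val := (p.1 : Matrix ι ι ℂ).kronecker (p.2 : Matrix κ κ ℂ)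
      inv := ((p.1⁻¹ : U ι) : Matrix ι ι ℂ).kronecker ((p.2⁻¹ : U κ) : Matrix κ κ ℂ)
      val_inv := by
        unfold Matrix.kronecker
        rw [← Matrix.mul_kronecker_mul, Units.mul_inv, Units.mul_inv, Matrix.one_kronecker_one]
      inv_val := by
        unfold Matrix.kronecker
        rw [← Matrix.mul_kronecker_mul, Units.inv_mul, Units.inv_mul, Matrix.one_kronecker_one] }
  map_one' := by
    apply Units.ext
    exact Matrix.one_kronecker_one
  map_mul' p q := by
    apply Units.ext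
    exact Matrix.mul_kronecker_mul _ _ _ _

/-- Block diagonal sum of unit matrices. -/
def sumU {ι κ : Type} [Fintype ι] [DecidableEq ι] [Fintype κ] [DecidableEq κ] :
    U ι × U κ →* U (ι ⊕ κ) where
  toFun p :=
    { val := Matrix.fromBlocks (p.1 : Matrix ι ι ℂ) 0 0 (p.2 : Matrix κ κ ℂ)
      inv := Matrix.fromBlocks ((p.1⁻¹ : U ι) : Matrix ι ι ℂ) 0 0 ((p.2⁻¹ : U κ) : Matrix κ κ ℂ)
      val_inv := by
        rw [Matrix.fromBlocks_multiply, Units.mul_inv, Units.mul_inv]
        simp only [Matrix.mul_zero, Matrix.zero_mul, add_zero, zero_add, Matrix.fromBlocks_one]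
      inv_val := by
        rw [Matrix.fromBlocks_multiply, Units.inv_mul, Units.inv_mul]
        simp only [Matrix.mul_zero, Matrix.zero_mul, add_zero, zero_add, Matrix.fromBlocks_one] }
  map_one' := by
    apply Units.ext
    exact Matrix.fromBlocks_one
  map_mul' p q := by
    apply Units.ext
    change Matrix.fromBlocks _ _ _ _ = Matrix.fromBlocks _ _ _ _ * Matrix.fromBlocks _ _ _ _
    rw [Matrix.fromBlocks_multiply]
    simp only [Matrix.mul_zero, Matrix.zero_mul, add_zero, zero_add]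
    rfl

/-- The transposed inverse. -/
def tinv {ι : Type} [Fintype ι] [DecidableEq ι] (z : U ι) : U ι where
  val := ((z⁻¹ : U ι) : Matrix ι ι ℂ)ᵀ
  inv := (z : Matrix ι ι ℂ)ᵀ
  val_inv := by rw [← Matrix.transpose_mul, Units.mul_inv, Matrix.transpose_one]
  inv_val := by rw [← Matrix.transpose_mul, Units.inv_mul, Matrix.transpose_one]

/-- A representation of level `i` for `φ` on `ℂ^ι`. -/
structure Rep {N : ℕ} (φ : FreeGroup (Fin N) →* FreeGroup (Fin N)) (i : ℕ) (ι : Type) [Fintype ι]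
    [DecidableEq ι] where
  ρ : FreeGroup (Fin N) →* U ι
  T : U ι
  rel : ∀ j : Fin N, (j : ℕ) < i → ρ (φ (FreeGroup.of j)) = T * ρ (FreeGroup.of j) * T⁻¹

namespace Rep

variable {N : ℕ} {φ : FreeGroup (Fin N) →* FreeGroup (Fin N)} {i : ℕ} {ι κ : Type} [Fintype ι]
  [DecidableEq ι] [Fintype κ] [DecidableEq κ]

/-- The matrix of an element of the free group. -/
def mat (V : Rep φ i ι) (w : FreeGroup (Fin N)) : Matrix ι ι ℂ := (V.ρ w : Matrix ι ι ℂ)

/-- The trace of an element of the free group. -/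
noncomputable def tr (V : Rep φ i ι) (w : FreeGroup (Fin N)) : ℂ := Matrix.trace (V.mat w)

/-- The matrix of the element `g t`. -/
def Z (V : Rep φ i ι) (g : FreeGroup (Fin N)) : U ι := V.ρ g * V.T

/-- No nontrivial element of `L_i` has trace equal to the dimension. -/
def Sep (V : Rep φ i ι) : Prop := ∀ w ∈ L N i, w ≠ 1 → V.tr w ≠ (Fintype.card ι : ℂ)

/-- Sum of two representations. -/
def sum (V : Rep φ i ι) (W : Rep φ i κ) : Rep φ i (ι ⊕ κ) where
  ρ := sumU.comp (V.ρ.prod W.ρ)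
  T := sumU (V.T, W.T)
  rel j hj := by
    have h : (V.ρ.prod W.ρ) (φ (FreeGroup.of j)) =
        (V.T, W.T) * (V.ρ.prod W.ρ) (FreeGroup.of j) * (V.T, W.T)⁻¹ := by
      rw [MonoidHom.prod_apply, MonoidHom.prod_apply, V.rel j hj, W.rel j hj]
      rfl
    rw [MonoidHom.comp_apply, MonoidHom.comp_apply, h, map_mul, map_mul, map_inv]

/-- Tensor product of two representations. -/
def kr (V : Rep φ i ι) (W : Rep φ i κ) : Rep φ i (ι × κ) where
  ρ := kronU.comp (V.ρ.prod W.ρ)
  T := kronU (V.T, W.T)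
  rel j hj := by
    have h : (V.ρ.prod W.ρ) (φ (FreeGroup.of j)) =
        (V.T, W.T) * (V.ρ.prod W.ρ) (FreeGroup.of j) * (V.T, W.T)⁻¹ := by
      rw [MonoidHom.prod_apply, MonoidHom.prod_apply, V.rel j hj, W.rel j hj]
      rfl
    rw [MonoidHom.comp_apply, MonoidHom.comp_apply, h, map_mul, map_mul, map_inv]

/-- The free group acts trivially, `t` acts by `A`. -/
def cst (φ : FreeGroup (Fin N) →* FreeGroup (Fin N)) (i : ℕ) (A : U κ) : Rep φ i κ where
  ρ := 1
  T := A
  rel j _ := by rw [MonoidHom.one_apply, MonoidHom.one_apply, mul_one, mul_inv_cancel]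

/-- Abelian representation: `w` acts by `A ^ α(w)`, `t` by `B`. -/
def ab (i : ℕ) (α : FreeGroup (Fin N) →* Multiplicative ℤ)
    (hα : ∀ j : Fin N, (j : ℕ) < i → α (φ (FreeGroup.of j)) = α (FreeGroup.of j)) (A B : U κ)
    (hAB : Commute A B) : Rep φ i κ where
  ρ := (zpowersHom (U κ) A).comp α
  T := B
  rel j hj := by
    rw [MonoidHom.comp_apply, MonoidHom.comp_apply, hα j hj]
    have h : Commute B (zpowersHom (U κ) A (α (FreeGroup.of j))) := by
      rw [zpowersHom_apply]
      exact (hAB.zpow_left _).symm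
    rw [h.eq, mul_inv_cancel_right]

/-- The twist by `z`: the space of matrices, `w` acts by `M ↦ ρ(w) M`, `t` acts by `M ↦ T M z⁻¹`. -/
def twist (V : Rep φ i ι) (z : U ι) : Rep φ i (ι × ι) := V.kr (cst φ i (tinv z))

end Rep

/-- Four vectors: `(D₁, F₁)` fixed by `x = g t`, `(D₂, F₂)` fixed by `y = h t`, with matrix coefficients `c` and vanishing mixed
coefficients. -/
structure Quad {N : ℕ} {φ : FreeGroup (Fin N) →* FreeGroup (Fin N)} {i : ℕ} {ι : Type} [Fintype ι]
    [DecidableEq ι] (V : Rep φ i ι) (g h : FreeGroup (Fin N)) (c : FreeGroup (Fin N) → ℂ)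
    (D1 F1 D2 F2 : ι → ℂ) : Prop where
  d1 : ((V.Z g : U ι) : Matrix ι ι ℂ) *ᵥ D1 = D1
  f1 : F1 ᵥ* ((V.Z g : U ι) : Matrix ι ι ℂ) = F1
  d2 : ((V.Z h : U ι) : Matrix ι ι ℂ) *ᵥ D2 = D2
  f2 : F2 ᵥ* ((V.Z h : U ι) : Matrix ι ι ℂ) = F2
  c1 : ∀ w, F1 ⬝ᵥ (V.mat w *ᵥ D1) = c w
  c2 : ∀ w, F2 ⬝ᵥ (V.mat w *ᵥ D2) = c w
  m1 : ∀ w, F1 ⬝ᵥ (V.mat w *ᵥ D2) = 0
  m2 : ∀ w, F2 ⬝ᵥ (V.mat w *ᵥ D1) = 0

/-- The matrices of `g t` and `h t` are conjugate. -/
def Matched {N : ℕ} {φ : FreeGroup (Fin N) →* FreeGroup (Fin N)} {i : ℕ} {ι : Type} [Fintype ι]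
    [DecidableEq ι] (V : Rep φ i ι) (g h : FreeGroup (Fin N)) : Prop :=
  ∃ S : U ι, V.Z g * S = S * V.Z h

/-- There is a representation of level `i` without nontrivial elements of `L_i` of trace `dim`, on a nonzero space. -/
def HasSep {N : ℕ} (φ : FreeGroup (Fin N) →* FreeGroup (Fin N)) (i : ℕ) : Prop :=
  ∃ (ι : Type) (_ : Fintype ι) (_ : DecidableEq ι) (_ : Nonempty ι) (V : Rep φ i ι), V.Sep

/-- The product `g₁ b^±1 g₂ b^±1 ⋯ g_k b^±1` of a list of syllables (`true` is the exponent `1`). -/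
def wv {G : Type} [Group G] (b : G) (l : List (G × Bool)) : G :=
  (l.map fun p => p.1 * (if p.2 then b else b⁻¹)).prod

end Pool.Agent.Helper45.HS
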