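import Pool.Agent.Helper45.HS.Core
import Pool.Agent.Helper45.HS.Ops

/-!
# HS-12 Ext: from the four vectors to the next level

`V₁ = V.sum (Rep.cst φ i (1 : U Unit))` (trivial representation added). `D⁺ = Sum.elim D1 1`, `F⁺ = Sum.elim F1 (-c 1)`, `D⁻ = Sum.elim D2 1`,
`F⁻ = Sum.elim F2 (-c 1)` (constants on `Unit`). `core` with these vectors and `S' = sumU (S, s)`, `s` a scalar unit on `Unit`:
`F⁺ (w D⁺) = c w - c 1`, `F⁻ (w D⁻) = c w - c 1` (zero for `w = 1`, which gives `h0p`, `h0m`; nonzero for `1 ≠ w ∈ L N i` by `hc`),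
`F⁻ (w D⁺) = 0 - c 1 = F⁺ (w D⁻)`, nonzero by `hc1`. `F⁺ (S' D⁻) = F1 (S D2) - s c 1` and `F⁻ (S'⁻¹ D⁺) = F2 (S⁻¹ D1) - s⁻¹ c 1`: choose the
nonzero scalar `s` different from `F1 (S D2) / c 1` and with `s⁻¹` different from `F2 (S⁻¹ D1) / c 1` (`ℂ` is infinite; e.g. among four
different nonzero numbers one works). `Sep` of `V₁`: `tr = V.tr w + 1`, `card = card ι + 1`. `Z` of the sum: `Rep.Z_sum`, `Rep.Z_cst`.
The matrices: `Matrix.fromBlocks_mulVec`, `Matrix.vecMul_fromBlocks`, `dotProduct` of `Sum.elim` (`Matrix.sumElim_dotProduct_sumElim`).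
-/

set_option autoImplicit false

namespace Pool.Agent.Helper45.HS

open Matrix

private theorem ext_mv {ι : Type} [Fintype ι] [DecidableEq ι] (A : U ι) (B : U Unit)
    (D : ι → ℂ) (E : Unit → ℂ) :
    ((sumU (A, B) : U (ι ⊕ Unit)) : Matrix (ι ⊕ Unit) (ι ⊕ Unit) ℂ) *ᵥ Sum.elim D E =
      Sum.elim ((A : Matrix ι ι ℂ) *ᵥ D) ((B : Matrix Unit Unit ℂ) *ᵥ E) := by
  change Matrix.fromBlocks (A : Matrix ι ι ℂ) 0 0 (B : Matrix Unit Unit ℂ) *ᵥ Sum.elim D E = _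
  rw [Matrix.fromBlocks_mulVec, Sum.elim_comp_inl, Sum.elim_comp_inr, Matrix.zero_mulVec,
    Matrix.zero_mulVec, add_zero, zero_add]

private theorem ext_vm {ι : Type} [Fintype ι] [DecidableEq ι] (A : U ι) (B : U Unit)
    (D : ι → ℂ) (E : Unit → ℂ) :
    Sum.elim D E ᵥ* ((sumU (A, B) : U (ι ⊕ Unit)) : Matrix (ι ⊕ Unit) (ι ⊕ Unit) ℂ) =
      Sum.elim (D ᵥ* (A : Matrix ι ι ℂ)) (E ᵥ* (B : Matrix Unit Unit ℂ)) := by
  change Sum.elim D E ᵥ* Matrix.fromBlocks (A : Matrix ι ι ℂ) 0 0 (B : Matrix Unit Unit ℂ) = _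
  rw [Matrix.vecMul_fromBlocks, Sum.elim_comp_inl, Sum.elim_comp_inr, Matrix.vecMul_zero,
    Matrix.vecMul_zero, add_zero, zero_add]

private theorem ext_dot {ι : Type} [Fintype ι] (F D : ι → ℂ) (a b : ℂ) :
    (Sum.elim F (fun _ : Unit => a)) ⬝ᵥ (Sum.elim D (fun _ : Unit => b)) = F ⬝ᵥ D + a * b := by
  rw [sumElim_dotProduct_sumElim]
  simp [dotProduct]

/-- the scalar unit of size one -/
private noncomputable def ext_sc (s : ℂ) (hs : s ≠ 0) : U Unit where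
  val := s • 1
  inv := s⁻¹ • 1
  val_inv := by
    rw [smul_mul_smul_comm, mul_inv_cancel₀ hs, mul_one, one_smul]
  inv_val := by
    rw [smul_mul_smul_comm, inv_mul_cancel₀ hs, mul_one, one_smul]

theorem ext_level {N : ℕ} {φ : FreeGroup (Fin N) →* FreeGroup (Fin N)} (i : Fin N) {ι : Type} [Fintype ι]
    [DecidableEq ι] (V : Rep φ (i : ℕ) ι) (hV : V.Sep) (u v : FreeGroup (Fin N))
    (hu : u ∈ L N (i : ℕ)) (hv : v ∈ L N (i : ℕ))
    (hφ : φ (FreeGroup.of i) = u * FreeGroup.of i * v)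
    (hL : ∀ j : Fin N, (j : ℕ) < (i : ℕ) → φ (FreeGroup.of j) ∈ L N (i : ℕ))
    (hM : Matched V u⁻¹ v) (c : FreeGroup (Fin N) → ℂ) (D1 F1 D2 F2 : ι → ℂ)
    (hq : Quad V u⁻¹ v c D1 F1 D2 F2) (hc1 : c 1 ≠ 0)
    (hc : ∀ w ∈ L N (i : ℕ), w ≠ 1 → c w ≠ c 1) :
    HasSep φ ((i : ℕ) + 1) := by
  obtain ⟨S, hS⟩ := hM
  obtain ⟨s, hs⟩ := Infinite.exists_notMem_finset
    ({0, (F1 ⬝ᵥ ((S : Matrix ι ι ℂ) *ᵥ D2)) / c 1,
      ((F2 ⬝ᵥ (((S⁻¹ : U ι) : Matrix ι ι ℂ) *ᵥ D1)) / c 1)⁻¹} : Finset ℂ)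
  simp only [Finset.mem_insert, Finset.mem_singleton, not_or] at hs
  obtain ⟨hs0, hs1, hs2⟩ := hs
  have hone : ∀ a : ℂ, ((1 : U Unit) : Matrix Unit Unit ℂ) *ᵥ (fun _ => a) = fun _ => a := by
    intro a
    rw [Units.val_one, Matrix.one_mulVec]
  have hone' : ∀ a : ℂ, (fun _ => a) ᵥ* ((1 : U Unit) : Matrix Unit Unit ℂ) = fun _ => a := by
    intro a
    rw [Units.val_one, Matrix.vecMul_one]
  have hsc : ((ext_sc s hs0 : U Unit) : Matrix Unit Unit ℂ) *ᵥ (fun _ => (1 : ℂ)) = fun _ => s := by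
    change (s • (1 : Matrix Unit Unit ℂ)) *ᵥ (fun _ => (1 : ℂ)) = fun _ => s
    rw [Matrix.smul_mulVec, Matrix.one_mulVec]
    funext x
    simp
  have hsc' : (((ext_sc s hs0)⁻¹ : U Unit) : Matrix Unit Unit ℂ) *ᵥ (fun _ => (1 : ℂ)) =
      fun _ => s⁻¹ := by
    change (s⁻¹ • (1 : Matrix Unit Unit ℂ)) *ᵥ (fun _ => (1 : ℂ)) = fun _ => s⁻¹
    rw [Matrix.smul_mulVec, Matrix.one_mulVec]
    funext x
    simp
  have hZ : ∀ g, (V.sum (Rep.cst φ (i : ℕ) (1 : U Unit))).Z g = sumU (V.Z g, 1) := by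
    intro g
    rw [Rep.Z_sum, Rep.Z_cst]
  have hmat : ∀ (w : FreeGroup (Fin N)) (D : ι → ℂ),
      (V.sum (Rep.cst φ (i : ℕ) (1 : U Unit))).mat w *ᵥ Sum.elim D (fun _ => (1 : ℂ)) =
        Sum.elim (V.mat w *ᵥ D) (fun _ => (1 : ℂ)) := by
    intro w D
    change ((sumU (V.ρ w, 1) : U (ι ⊕ Unit)) : Matrix (ι ⊕ Unit) (ι ⊕ Unit) ℂ) *ᵥ _ = _
    rw [ext_mv, hone]
    rfl
  have h1 : V.mat 1 = 1 := by
    change ((V.ρ 1 : U ι) : Matrix ι ι ℂ) = 1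
    rw [map_one, Units.val_one]
  have hc11 := hq.c1 1
  have hc21 := hq.c2 1
  rw [h1, Matrix.one_mulVec] at hc11 hc21
  refine core i (V.sum (Rep.cst φ (i : ℕ) (1 : U Unit))) ?_ u v hu hv hφ hL
    (sumU (S, ext_sc s hs0)) ?_ (Sum.elim D1 (fun _ => 1)) (Sum.elim F1 (fun _ => -c 1))
    (Sum.elim D2 (fun _ => 1)) (Sum.elim F2 (fun _ => -c 1)) ?_ ?_ ?_ ?_ ?_ ?_ ?_ ?_ ?_ ?_ ?_ ?_
  · intro w hw hw1 h
    rw [Rep.tr_sum, Rep.tr_cst, Fintype.card_sum, Nat.cast_add] at h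
    exact hV w hw hw1 (add_right_cancel h)
  · rw [hZ, hZ, ← map_mul, ← map_mul, Prod.mk_mul_mk, Prod.mk_mul_mk, hS, one_mul, mul_one]
  · rw [hZ, ext_mv, hone, hq.d1]
  · rw [hZ, ext_vm, hone', hq.f1]
  · rw [hZ, ext_mv, hone, hq.d2]
  · rw [hZ, ext_vm, hone', hq.f2]
  · rw [ext_dot, hc11]
    ring
  · rw [ext_dot, hc21]
    ring
  · intro w hw hw1 h
    rw [hmat, ext_dot, hq.c1] at h
    exact hc w hw hw1 (by linear_combination h)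
  · intro w hw hw1 h
    rw [hmat, ext_dot, hq.c2] at h
    exact hc w hw hw1 (by linear_combination h)
  · intro w hw h
    rw [hmat, ext_dot, hq.m2] at h
    exact hc1 (by linear_combination -h)
  · intro w hw h
    rw [hmat, ext_dot, hq.m1] at h
    exact hc1 (by linear_combination -h)
  · intro h
    rw [ext_mv, hsc, ext_dot] at h
    apply hs1
    rw [eq_div_iff hc1]
    linear_combination -h
  · intro h
    rw [← map_inv, Prod.inv_mk, ext_mv, hsc', ext_dot] at h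
    apply hs2
    have h2 : (F2 ⬝ᵥ (((S⁻¹ : U ι) : Matrix ι ι ℂ) *ᵥ D1)) / c 1 = s⁻¹ := by
      rw [div_eq_iff hc1]
      linear_combination h
    rw [h2, inv_inv]

end Pool.Agent.Helper45.HS
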