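import Pool.Agent.Helper45.HS.Lin

/-!
# HS-17 Fin: final assembly (helper45)
-/

set_option autoImplicit false

namespace Pool.Agent.Helper45.HS

theorem hasSep_base (N m : ℕ) (φ : FreeGroup (Fin N) →* FreeGroup (Fin N)) (d : ℕ)
    (ρ : FreeGroup (Fin N) →* Matrix.GeneralLinearGroup (Fin d) ℂ)
    (T : Matrix.GeneralLinearGroup (Fin d) ℂ) (k : ℕ) (hk : L N k ≤ L N m)
    (hkm : ∀ j : Fin N, (j : ℕ) < k → (j : ℕ) < m)
    (h1 : ∀ j : Fin N, (j : ℕ) < m → ρ (φ (FreeGroup.of j)) = T * ρ (FreeGroup.of j) * T⁻¹)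
    (h2 : ∀ w ∈ L N m, w ≠ 1 → Matrix.trace (ρ w : Matrix (Fin d) (Fin d) ℂ) ≠ (d : ℂ)) :
    HasSep φ k := by
  rcases Nat.eq_zero_or_pos d with h0 | h0
  · subst h0
    have h3 : ∀ w ∈ L N m, w = 1 := by
      intro w hw
      by_contra hne
      apply h2 w hw hne
      rw [Matrix.trace, Finset.univ_eq_empty, Finset.sum_empty, Nat.cast_zero]
    refine ⟨Unit, inferInstance, inferInstance, ⟨()⟩, ⟨1, 1, fun j _ => ?_⟩, ?_⟩
    · rw [MonoidHom.one_apply, MonoidHom.one_apply, mul_one, mul_inv_cancel]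
    · intro w hw hne
      exact absurd (h3 w (hk hw)) hne
  · refine ⟨Fin d, inferInstance, inferInstance, ⟨⟨0, h0⟩⟩, ⟨ρ, T, fun j hj => h1 j (hkm j hj)⟩, ?_⟩
    intro w hw hne
    rw [Fintype.card_fin]
    exact h2 w (hk hw) hne

theorem final (N m : ℕ) (φ : Multiplicative ℤ →* MulAut (FreeGroup (Fin N)))
    (hbL : ∀ j : Fin N, (j : ℕ) < m → φ (Multiplicative.ofAdd 1) (FreeGroup.of j) ∈
      Subgroup.closure (FreeGroup.of '' {j : Fin N | (j : ℕ) < m}))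
    (hb : ∃ (d : ℕ) (ρ : FreeGroup (Fin N) →* Matrix.GeneralLinearGroup (Fin d) ℂ)
      (T : Matrix.GeneralLinearGroup (Fin d) ℂ),
      (∀ j : Fin N, (j : ℕ) < m →
        ρ (φ (Multiplicative.ofAdd 1) (FreeGroup.of j)) = T * ρ (FreeGroup.of j) * T⁻¹) ∧
      ∀ w ∈ Subgroup.closure (FreeGroup.of '' {j : Fin N | (j : ℕ) < m}), w ≠ 1 →
        Matrix.trace (ρ w : Matrix (Fin d) (Fin d) ℂ) ≠ (d : ℂ))
    (u v : Fin N → FreeGroup (Fin N))
    (hu : ∀ i : Fin N, m ≤ (i : ℕ) → u i ∈ Subgroup.closure (FreeGroup.of '' {j : Fin N | j < i}))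
    (hv : ∀ i : Fin N, m ≤ (i : ℕ) → v i ∈ Subgroup.closure (FreeGroup.of '' {j : Fin N | j < i}))
    (hφ : ∀ i : Fin N, m ≤ (i : ℕ) →
      φ (Multiplicative.ofAdd 1) (FreeGroup.of i) = u i * FreeGroup.of i * v i)
    (hst : ∀ i : Fin N, m ≤ (i : ℕ) →
      (∃ f ∈ Subgroup.closure (FreeGroup.of '' {j : Fin N | j < i}),
        v i = f⁻¹ * (u i)⁻¹ * φ (Multiplicative.ofAdd 1) f) ∨
      ∃ α : FreeGroup (Fin N) →* Multiplicative ℤ,
        (∀ j : Fin N, j < i → α (φ (Multiplicative.ofAdd 1) (FreeGroup.of j)) = α (FreeGroup.of j)) ∧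
          α (u i * v i) ≠ 1)
    (G : Type) [Group G] (H : Subgroup G) [H.FiniteIndex]
    (e : H →* SemidirectProduct (FreeGroup (Fin N)) (Multiplicative ℤ) φ)
    (he : Function.Injective e) :
    ∃ (K : Type) (_ : Field K) (d : ℕ) (f : G →* Matrix.GeneralLinearGroup (Fin d) K),
      CharZero K ∧ Function.Injective f := by
  obtain ⟨d, ρ, T, h1, h2⟩ := hb
  have key : HasSep (φ (Multiplicative.ofAdd 1)).toMonoidHom N := by
    rcases Nat.lt_or_ge N m with hm | hm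
    · exact hasSep_base N m _ d ρ T N
        (Subgroup.closure_mono (Set.image_mono fun j _ => lt_trans j.isLt hm))
        (fun j _ => lt_trans j.isLt hm) h1 h2
    · exact hasSep_of (φ (Multiplicative.ofAdd 1)).toMonoidHom m
        (hasSep_base N m _ d ρ T m le_rfl (fun _ h => h) h1 h2) hbL u v hu hv hφ hst N hm le_rfl
  obtain ⟨d', f, hf⟩ := linear_of_hasSep N φ key G H e he
  exact ⟨ℂ, inferInstance, d', f, inferInstance, hf⟩

end Pool.Agent.Helper45.HS
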