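import Pool.Agent.Helper45.HS.Defs

/-!
# HS-09 Lead: the leading coefficient of the trace of a product

`B ε` (`ε : Bool`) is a matrix of polynomials of degree `≤ 2` whose coefficient matrix at `X ^ 2` is `c ε • (D ε ⊗ F ε)`, with `c ε ≠ 0`.
`M g` are constant matrices. For a nonempty list `l` of syllables `(g, ε)` such that for consecutive syllables `p, q` (and cyclically for the last and
the first one) the pairing `F p.2 ⬝ᵥ (M q.1 *ᵥ D q.2)` is nonzero, the coefficient of `X ^ (2 * length)` of the trace of `∏ M(g) B(ε)` is nonzero.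
Proof. For a matrix `A` of polynomials put `co n A = A.map (coeff n)`. If the entries of `A` have degree `≤ a` and those of `A'` have degree `≤ a'` then
the entries of `A A'` have degree `≤ a + a'` and `co (a + a') (A A') = co a A * co a' A'` (`Polynomial.coeff_mul_of_natDegree_le`,
`Polynomial.natDegree_sum_le_of_forall_le`, `Polynomial.finset_sum_coeff`). Induction on the list (first syllable `p`): for every list
`p :: l` that satisfies the chain condition there is `e ≠ 0` such that the entries of the product have degree `≤ 2 * (l.length + 1)` and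
`co (2 * (l.length + 1)) = e • vecMulVec (M p.1 *ᵥ D p.2) (F q.2)` where `q` is the last syllable of `p :: l`. Step: the product for `p :: q :: l'` is
`(M p.1 B p.2) * (product for q :: l')` and `vecMulVec (M p.1 *ᵥ D p.2) (F p.2) * vecMulVec (M q.1 *ᵥ D q.2) (F r.2)
 = (F p.2 ⬝ᵥ (M q.1 *ᵥ D q.2)) • vecMulVec (M p.1 *ᵥ D p.2) (F r.2)`. The trace of
`e • vecMulVec (M p.1 *ᵥ D p.2) (F q.2)` is `e * (F q.2 ⬝ᵥ (M p.1 *ᵥ D p.2)) ≠ 0` by the cyclic condition (`q` last, `p` first).
-/

set_option autoImplicit false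

namespace Pool.Agent.Helper45.HS

open Polynomial Matrix

section

variable {ι : Type} [Fintype ι] [DecidableEq ι]

omit [DecidableEq ι] in
private theorem pdeg (A B : Matrix ι ι ℂ[X]) (m n : ℕ)
    (hA : ∀ a b, (A a b).natDegree ≤ m) (hB : ∀ a b, (B a b).natDegree ≤ n) (a b : ι) :
    ((A * B) a b).natDegree ≤ m + n := by
  rw [Matrix.mul_apply]
  refine Polynomial.natDegree_sum_le_of_forall_le _ _ fun k _ => ?_
  exact Polynomial.natDegree_mul_le.trans (Nat.add_le_add (hA a k) (hB k b))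

omit [DecidableEq ι] in
private theorem pcoeff (A B : Matrix ι ι ℂ[X]) (m n : ℕ)
    (hA : ∀ a b, (A a b).natDegree ≤ m) (hB : ∀ a b, (B a b).natDegree ≤ n) (a b : ι) :
    ((A * B) a b).coeff (m + n) = ∑ k, (A a k).coeff m * (B k b).coeff n := by
  rw [Matrix.mul_apply, Polynomial.finsetSum_coeff]
  exact Finset.sum_congr rfl fun k _ => Polynomial.coeff_mul_add_eq_of_natDegree_le (hA a k) (hB k b)

private theorem syl_deg (M : Matrix ι ι ℂ) (B : Matrix ι ι ℂ[X])
    (hdeg : ∀ a b, (B a b).natDegree ≤ 2) (a b : ι) :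
    ((M.map C * B) a b).natDegree ≤ 2 := by
  have := pdeg (M.map C) B 0 2 (fun a b => by rw [Matrix.map_apply, Polynomial.natDegree_C]) hdeg a b
  rwa [zero_add] at this

private theorem syl_coeff (M : Matrix ι ι ℂ) (B : Matrix ι ι ℂ[X]) (D F : ι → ℂ) (c : ℂ)
    (hdeg : ∀ a b, (B a b).natDegree ≤ 2)
    (hlead : ∀ a b, (B a b).coeff 2 = c * (D a * F b)) (a b : ι) :
    ((M.map C * B) a b).coeff 2 = c * ((M *ᵥ D) a * F b) := by
  have := pcoeff (M.map C) B 0 2 (fun a b => by rw [Matrix.map_apply, Polynomial.natDegree_C]) hdeg a b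
  rw [zero_add] at this
  rw [this]
  change _ = c * ((∑ k, M a k * D k) * F b)
  rw [Finset.sum_mul, Finset.mul_sum]
  refine Finset.sum_congr rfl fun k _ => ?_
  rw [Matrix.map_apply, Polynomial.coeff_C_zero, hlead]
  ring

end

private theorem lead_aux {G ι : Type} [Fintype ι] [DecidableEq ι] (M : G → Matrix ι ι ℂ)
    (B : Bool → Matrix ι ι ℂ[X])
    (D F : Bool → ι → ℂ) (c : Bool → ℂ) (hc : ∀ ε, c ε ≠ 0)
    (hdeg : ∀ ε a b, (B ε a b).natDegree ≤ 2)
    (hlead : ∀ ε a b, (B ε a b).coeff 2 = c ε * (D ε a * F ε b))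
    (l : List (G × Bool)) (p : G × Bool)
    (hch : List.IsChain (fun p q : G × Bool => F p.2 ⬝ᵥ (M q.1 *ᵥ D q.2) ≠ 0) (p :: l)) :
    (∀ a b, (((p :: l).map fun p => (M p.1).map C * B p.2).prod a b).natDegree ≤
      2 * (l.length + 1)) ∧
    ∃ e : ℂ, e ≠ 0 ∧ ∀ a b, (((p :: l).map fun p => (M p.1).map C * B p.2).prod a b).coeff
      (2 * (l.length + 1)) = e * ((M p.1 *ᵥ D p.2) a *
        F ((p :: l).getLast (List.cons_ne_nil _ _)).2 b) := by
  induction l generalizing p with
  | nil =>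
    have h0 : ([p].map fun p => (M p.1).map C * B p.2).prod = (M p.1).map C * B p.2 := by
      rw [List.map_singleton, List.prod_singleton]
    rw [h0]
    refine ⟨fun a b => syl_deg _ _ (hdeg p.2) a b, c p.2, hc _, fun a b => ?_⟩
    exact syl_coeff _ _ _ _ _ (hdeg p.2) (hlead p.2) a b
  | cons q l ih =>
    rw [List.isChain_cons_cons] at hch
    obtain ⟨h1, h2⟩ := hch
    obtain ⟨hd, e, he, hce⟩ := ih q h2
    have h0 : ((p :: q :: l).map fun p => (M p.1).map C * B p.2).prod =
        ((M p.1).map C * B p.2) * ((q :: l).map fun p => (M p.1).map C * B p.2).prod := by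
      rw [List.map_cons, List.prod_cons]
    have h3 : 2 * ((q :: l).length + 1) = 2 + 2 * (l.length + 1) := by
      rw [List.length_cons]; ring
    rw [h0, h3]
    refine ⟨fun a b => pdeg _ _ _ _ (syl_deg _ _ (hdeg p.2)) hd a b,
      c p.2 * e * (F p.2 ⬝ᵥ (M q.1 *ᵥ D q.2)), mul_ne_zero (mul_ne_zero (hc _) he) h1,
      fun a b => ?_⟩
    rw [pcoeff _ _ _ _ (syl_deg _ _ (hdeg p.2)) hd a b]
    have h4 : (p :: q :: l).getLast (List.cons_ne_nil _ _) =
        (q :: l).getLast (List.cons_ne_nil _ _) := List.getLast_cons _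
    rw [h4]
    change _ = c p.2 * e * (∑ k, F p.2 k * (M q.1 *ᵥ D q.2) k) * _
    rw [Finset.mul_sum, Finset.sum_mul]
    refine Finset.sum_congr rfl fun k _ => ?_
    rw [hce, syl_coeff _ _ _ _ _ (hdeg p.2) (hlead p.2)]
    ring

theorem lead_ne {G ι : Type} [Fintype ι] [DecidableEq ι] (M : G → Matrix ι ι ℂ) (B : Bool → Matrix ι ι ℂ[X])
    (D F : Bool → ι → ℂ) (c : Bool → ℂ) (hc : ∀ ε, c ε ≠ 0)
    (hdeg : ∀ ε a b, (B ε a b).natDegree ≤ 2)
    (hlead : ∀ ε a b, (B ε a b).coeff 2 = c ε * (D ε a * F ε b))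
    (l : List (G × Bool)) (hl : l ≠ [])
    (hch : List.IsChain (fun p q : G × Bool => F p.2 ⬝ᵥ (M q.1 *ᵥ D q.2) ≠ 0) l)
    (hcyc : F (l.getLast hl).2 ⬝ᵥ (M (l.head hl).1 *ᵥ D (l.head hl).2) ≠ 0) :
    (Matrix.trace (l.map fun p => (M p.1).map C * B p.2).prod).coeff (2 * l.length) ≠ 0 := by
  cases l with
  | nil => exact absurd rfl hl
  | cons p l =>
    obtain ⟨_, e, he, hce⟩ := lead_aux M B D F c hc hdeg hlead l p hch
    rw [List.length_cons]
    unfold Matrix.trace
    rw [Polynomial.finsetSum_coeff]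
    have h1 : ∀ a : ι, (Matrix.diag ((p :: l).map fun p => (M p.1).map C * B p.2).prod a).coeff
        (2 * (l.length + 1)) = e * (F ((p :: l).getLast hl).2 a * (M p.1 *ᵥ D p.2) a) := by
      intro a
      rw [Matrix.diag_apply, hce]
      ring
    rw [Finset.sum_congr rfl fun a _ => h1 a, ← Finset.mul_sum]
    exact mul_ne_zero he hcyc

end Pool.Agent.Helper45.HS
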