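import Pool.Agent.Helper45.HS.Main
import Pool.Agent.Helper53.LG.CoindGL

/-!
# HS-16 Lin: linearity

`Φ : Multiplicative ℤ →* MulAut (FreeGroup (Fin N))`, `φ = (Φ (ofAdd 1)).toMonoidHom`. From `HasSep φ N`: `(ρ, T)` with `ρ (φ w) = T ρ(w) T⁻¹` for all `w`
(`Rep.rel_mem`, `L N N = ⊤`: `FreeGroup.closure_range_of`). `T ^ k ρ(w) T ^ (-k) = ρ (Φ (ofAdd k) w)` for all integers `k`, so
`SemidirectProduct.lift ρ (zpowersHom _ T)` is a homomorphism `G₀ → U ι`, `G₀ = F_N ⋊ ℤ`. Pair it with `G₀ → U Unit`,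
`(w, k) ↦ 2 ^ k` (`rightHom` and `zpowersHom`), by `sumU`: homomorphism to `U (ι ⊕ Unit)`. Injective: if `(w, k) ↦ 1` then `2 ^ k = 1`, so `k = 0`, and
`ρ w = 1`, so the trace of `ρ w` is `card ι`, so `w = 1` by `Sep`. `U (ι ⊕ Unit)` is `GL (ι ⊕ Unit) ℂ`; reindex by
`Fintype.equivFin` (`Matrix.reindexAlgEquiv` / `Units.mapEquiv`) to get `GL (Fin d) ℂ`. Compose with `e`, restrict; `coind_GL`
(`Pool.Agent.Helper53.LG.coind_GL`) for `H ≤ G` of finite index. `K = ℂ`.
-/

set_option autoImplicit false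

namespace Pool.Agent.Helper45.HS

theorem h86_L_top (N : ℕ) : L N N = ⊤ := by
  unfold L
  rw [← FreeGroup.closure_range_of, ← Set.image_univ]
  congr 2
  ext j
  exact ⟨fun _ => Set.mem_univ _, fun _ => j.2⟩

theorem h86_conj {N : ℕ} {ι : Type} [Fintype ι] [DecidableEq ι]
    (Φ : Multiplicative ℤ →* MulAut (FreeGroup (Fin N)))
    (V : Rep (Φ (Multiplicative.ofAdd 1)).toMonoidHom N ι) (k : Multiplicative ℤ) :
    V.ρ.comp (Φ k).toMonoidHom =
      (MulAut.conj (zpowersHom (U ι) V.T k)).toMonoidHom.comp V.ρ := by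
  have h1 : ∀ w, V.ρ (Φ (Multiplicative.ofAdd 1) w) = V.T * V.ρ w * V.T⁻¹ := by
    intro w
    exact V.rel_mem w (by rw [h86_L_top]; exact Subgroup.mem_top _)
  have key : ∀ n : ℤ, ∀ w, V.ρ (Φ (Multiplicative.ofAdd n) w) =
      V.T ^ n * V.ρ w * (V.T ^ n)⁻¹ := by
    intro n
    induction n using Int.induction_on with
    | zero =>
      intro w
      rw [ofAdd_zero, map_one Φ, MulAut.one_apply, zpow_zero, one_mul, inv_one, mul_one]
    | succ n ih =>
      intro w
      rw [ofAdd_add, map_mul Φ, MulAut.mul_apply, ih, h1, zpow_add_one, mul_inv_rev]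
      simp only [mul_assoc]
    | pred n ih =>
      intro w
      have h2 := ih (Φ (Multiplicative.ofAdd (-1)) w)
      have h3 : Φ (Multiplicative.ofAdd (-(n : ℤ))) (Φ (Multiplicative.ofAdd (-1)) w) =
          Φ (Multiplicative.ofAdd (-(n : ℤ) - 1)) w := by
        rw [← MulAut.mul_apply, ← map_mul Φ, ← ofAdd_add, sub_eq_add_neg]
      rw [h3] at h2
      have h4 := h1 (Φ (Multiplicative.ofAdd (-1)) w)
      have h5 : Φ (Multiplicative.ofAdd 1) (Φ (Multiplicative.ofAdd (-1)) w) = w := by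
        rw [← MulAut.mul_apply, ← map_mul Φ, ← ofAdd_add, add_neg_cancel, ofAdd_zero, map_one Φ,
          MulAut.one_apply]
      rw [h5] at h4
      have h6 : V.ρ (Φ (Multiplicative.ofAdd (-1)) w) = V.T⁻¹ * V.ρ w * V.T := by
        rw [h4]
        group
      rw [h2, h6, zpow_sub_one, mul_inv_rev, inv_inv]
      simp only [mul_assoc]
  refine MonoidHom.ext fun w => ?_
  have h7 := key (Multiplicative.toAdd k) w
  rw [ofAdd_toAdd] at h7
  rw [MonoidHom.comp_apply, MonoidHom.comp_apply]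
  exact h7

/-- the one by one matrix `2` -/
noncomputable def h86_two : U Unit :=
  Units.map (Matrix.scalar Unit : ℂ →+* Matrix Unit Unit ℂ).toMonoidHom
    (Units.mk0 (2 : ℂ) two_ne_zero)

theorem h86_two_zpow {n : ℤ} (h : h86_two ^ n = 1) : n = 0 := by
  have h1 : Units.map (Matrix.detMonoidHom (R := ℂ) (n := Unit)) (h86_two ^ n) = 1 := by
    rw [h, map_one]
  have h2 : Units.map (Matrix.detMonoidHom (R := ℂ) (n := Unit)) h86_two =
      Units.mk0 (2 : ℂ) two_ne_zero := by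
    apply Units.ext
    change Matrix.det ((Matrix.scalar Unit) (2 : ℂ)) = 2
    simp
  rw [map_zpow, h2] at h1
  have h3 : ((2 : ℂ)) ^ n = 1 := by
    have := congrArg (Units.val) h1
    rwa [Units.val_zpow_eq_zpow_val] at this
  have h4 : (2 : ℝ) ^ n = 2 ^ (0 : ℤ) := by
    have := congrArg (fun z : ℂ => ‖z‖) h3
    simpa using this
  exact zpow_right_injective₀ (by norm_num) (by norm_num) h4

theorem linear_of_hasSep (N : ℕ) (Φ : Multiplicative ℤ →* MulAut (FreeGroup (Fin N)))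
    (h : HasSep (Φ (Multiplicative.ofAdd 1)).toMonoidHom N) (G : Type) [Group G] (H : Subgroup G)
    [H.FiniteIndex] (e : H →* SemidirectProduct (FreeGroup (Fin N)) (Multiplicative ℤ) Φ)
    (he : Function.Injective e) :
    ∃ (d : ℕ) (f : G →* Matrix.GeneralLinearGroup (Fin d) ℂ), Function.Injective f := by
  obtain ⟨ι, _, _, _, V, hV⟩ := h
  obtain ⟨F, hF⟩ : ∃ F : SemidirectProduct (FreeGroup (Fin N)) (Multiplicative ℤ) Φ →* U ι,
      ∀ x, F x = V.ρ x.left * zpowersHom (U ι) V.T x.right :=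
    ⟨SemidirectProduct.lift V.ρ (zpowersHom (U ι) V.T) (h86_conj Φ V), fun _ => rfl⟩
  obtain ⟨G2, hG2⟩ : ∃ G2 : SemidirectProduct (FreeGroup (Fin N)) (Multiplicative ℤ) Φ →* U Unit,
      ∀ x, G2 x = zpowersHom (U Unit) h86_two x.right :=
    ⟨(zpowersHom (U Unit) h86_two).comp SemidirectProduct.rightHom, fun _ => rfl⟩
  have hinj : Function.Injective (sumU.comp (F.prod G2)) := by
    rw [injective_iff_map_eq_one]
    intro x hx
    have h1 : Matrix.fromBlocks ((F x : U ι) : Matrix ι ι ℂ) 0 0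
        ((G2 x : U Unit) : Matrix Unit Unit ℂ) = Matrix.fromBlocks 1 0 0 1 := by
      rw [Matrix.fromBlocks_one]
      exact congrArg Units.val hx
    obtain ⟨h2, _, _, h3⟩ := Matrix.fromBlocks_inj.mp h1
    have h4 : F x = 1 := Units.ext h2
    have h5 : G2 x = 1 := Units.ext h3
    rw [hG2, zpowersHom_apply] at h5
    have h6 : x.right = 1 := h86_two_zpow h5
    rw [hF, h6, map_one (zpowersHom (U ι) V.T), mul_one] at h4
    have h7 : x.left = 1 := by
      by_contra hne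
      apply hV x.left (by rw [h86_L_top]; exact Subgroup.mem_top _) hne
      unfold Rep.tr Rep.mat
      rw [h4, Units.val_one, Matrix.trace_one]
    exact SemidirectProduct.ext h7 h6
  obtain ⟨R, hR⟩ : ∃ R : U (ι ⊕ Unit) →*
      Matrix.GeneralLinearGroup (Fin (Fintype.card (ι ⊕ Unit))) ℂ, Function.Injective R :=
    ⟨(Units.mapEquiv (Matrix.reindexAlgEquiv ℂ ℂ
      (Fintype.equivFin (ι ⊕ Unit))).toMulEquiv).toMonoidHom, MulEquiv.injective _⟩
  exact Pool.Agent.Helper53.LG.coind_GL H ((R.comp (sumU.comp (F.prod G2))).comp e)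
    (hR.comp (hinj.comp he))

end Pool.Agent.Helper45.HS
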