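import Pool.Agent.Helper45.HS.Defs

/-!
# HS-05 Tw

The sum of the twists of `V` by `X = Z g` and `Y = Z h` has the four vectors: on the first summand `D (a, b) = if a = b then 1 else 0`
(the identity matrix) and `F = D` (the trace); same on the second summand; zero on the other summand (`Sum.elim D 0`, `Sum.elim 0 D`).
Matrix of `g t` on the first summand: `Z g ⊗ (Z g)⁻ᵀ` (entries `(Z g) a a' * (Z g)⁻¹ b' b`), so `(Z g ⊗ (Z g)⁻ᵀ) *ᵥ D` has the entry
`∑ a', (Z g) a a' (Z g)⁻¹ a' b = δ_ab`; same for `F ᵥ*`. Matrix of `w`: `mat w ⊗ 1`, so `F ⬝ᵥ (mat w ⊗ 1) *ᵥ D = ∑ a, (mat w) a a = tr w`.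
The mixed coefficients vanish because the matrices are block diagonal. Prove first the four facts about one twist (`Z z ⊗ Z⁻ᵀ` fixes `D` on
both sides, coefficient = trace).
-/

set_option autoImplicit false

namespace Pool.Agent.Helper45.HS

open Matrix

variable {N : ℕ} {φ : FreeGroup (Fin N) →* FreeGroup (Fin N)} {i : ℕ} {ι : Type} [Fintype ι] [DecidableEq ι]

private def dl (ι : Type) [DecidableEq ι] : ι × ι → ℂ := fun p => if p.1 = p.2 then 1 else 0

private theorem kron_mulVec (A B : Matrix ι ι ℂ) (a b : ι) :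
    ((A.kronecker B) *ᵥ dl ι) (a, b) = ∑ x, A a x * B b x := by
  rw [Matrix.mulVec, dotProduct, Fintype.sum_prod_type]
  refine Finset.sum_congr rfl fun x _ => ?_
  rw [Finset.sum_eq_single x]
  · unfold Matrix.kronecker
    rw [Matrix.kroneckerMap_apply]
    simp [dl]
  · intro y _ hy
    simp [dl, Ne.symm hy]
  · intro h
    exact absurd (Finset.mem_univ _) h

private theorem kron_vecMul (A B : Matrix ι ι ℂ) (a b : ι) :
    (dl ι ᵥ* (A.kronecker B)) (a, b) = ∑ x, A x a * B x b := by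
  rw [Matrix.vecMul, dotProduct, Fintype.sum_prod_type]
  refine Finset.sum_congr rfl fun x _ => ?_
  rw [Finset.sum_eq_single x]
  · unfold Matrix.kronecker
    rw [Matrix.kroneckerMap_apply]
    simp [dl]
  · intro y _ hy
    simp [dl, Ne.symm hy]
  · intro h
    exact absurd (Finset.mem_univ _) h

private theorem tinv_mulVec (z : U ι) :
    ((z : Matrix ι ι ℂ).kronecker ((tinv z : U ι) : Matrix ι ι ℂ)) *ᵥ dl ι = dl ι := by
  funext p
  obtain ⟨a, b⟩ := p
  rw [kron_mulVec]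
  have h1 : ∑ x, (z : Matrix ι ι ℂ) a x * ((tinv z : U ι) : Matrix ι ι ℂ) b x =
      ((z : Matrix ι ι ℂ) * ((z⁻¹ : U ι) : Matrix ι ι ℂ)) a b := by
    rw [Matrix.mul_apply]
    rfl
  rw [h1, Units.mul_inv, Matrix.one_apply]
  rfl

private theorem tinv_vecMul (z : U ι) :
    dl ι ᵥ* ((z : Matrix ι ι ℂ).kronecker ((tinv z : U ι) : Matrix ι ι ℂ)) = dl ι := by
  funext p
  obtain ⟨a, b⟩ := p
  rw [kron_vecMul]
  have h1 : ∑ x, (z : Matrix ι ι ℂ) x a * ((tinv z : U ι) : Matrix ι ι ℂ) x b =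
      (((z⁻¹ : U ι) : Matrix ι ι ℂ) * (z : Matrix ι ι ℂ)) b a := by
    rw [Matrix.mul_apply]
    refine Finset.sum_congr rfl fun x _ => ?_
    rw [mul_comm]
    rfl
  rw [h1, Units.inv_mul, Matrix.one_apply]
  change _ = if a = b then (1 : ℂ) else 0
  by_cases h : a = b
  · rw [if_pos h, if_pos h.symm]
  · rw [if_neg h, if_neg (Ne.symm h)]

private theorem kron_coef (M : Matrix ι ι ℂ) :
    dl ι ⬝ᵥ ((M.kronecker (1 : Matrix ι ι ℂ)) *ᵥ dl ι) = Matrix.trace M := by
  rw [dotProduct, Fintype.sum_prod_type, Matrix.trace]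
  refine Finset.sum_congr rfl fun a _ => ?_
  rw [Finset.sum_eq_single a]
  · rw [kron_mulVec, Finset.sum_eq_single a]
    · simp [dl]
    · intro x _ hx
      rw [Matrix.one_apply_ne (Ne.symm hx), mul_zero]
    · intro h
      exact absurd (Finset.mem_univ _) h
  · intro y _ hy
    simp [dl, Ne.symm hy]
  · intro h
    exact absurd (Finset.mem_univ _) h

private theorem twist_Z (V : Rep φ i ι) (z : U ι) (g : FreeGroup (Fin N)) :
    (V.twist z).Z g = kronU (V.Z g, tinv z) := by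
  change kronU (V.ρ g, (1 : U ι)) * kronU (V.T, tinv z) = _
  rw [← map_mul]
  change kronU (V.ρ g * V.T, 1 * tinv z) = _
  rw [one_mul]
  rfl

private theorem sum_Z {κ : Type} [Fintype κ] [DecidableEq κ] (V : Rep φ i ι) (W : Rep φ i κ)
    (g : FreeGroup (Fin N)) : (V.sum W).Z g = sumU (V.Z g, W.Z g) := by
  change sumU (V.ρ g, W.ρ g) * sumU (V.T, W.T) = _
  rw [← map_mul]
  rfl

private theorem blk_mulVec {κ : Type} [Fintype κ] [DecidableEq κ] (A : Matrix ι ι ℂ)
    (B : Matrix κ κ ℂ) (x : ι → ℂ) (y : κ → ℂ) :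
    Matrix.fromBlocks A 0 0 B *ᵥ Sum.elim x y = Sum.elim (A *ᵥ x) (B *ᵥ y) := by
  rw [Matrix.fromBlocks_mulVec]
  simp

private theorem blk_vecMul {κ : Type} [Fintype κ] [DecidableEq κ] (A : Matrix ι ι ℂ)
    (B : Matrix κ κ ℂ) (x : ι → ℂ) (y : κ → ℂ) :
    Sum.elim x y ᵥ* Matrix.fromBlocks A 0 0 B = Sum.elim (x ᵥ* A) (y ᵥ* B) := by
  rw [Matrix.vecMul_fromBlocks]
  simp

theorem twist_quad (V : Rep φ i ι) (g h : FreeGroup (Fin N)) :
    ∃ D1 F1 D2 F2 : (ι × ι) ⊕ (ι × ι) → ℂ,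
      Quad ((V.twist (V.Z g)).sum (V.twist (V.Z h))) g h V.tr D1 F1 D2 F2 := by
  refine ⟨Sum.elim (dl ι) 0, Sum.elim (dl ι) 0, Sum.elim 0 (dl ι), Sum.elim 0 (dl ι), ?_⟩
  have hval : ∀ k : FreeGroup (Fin N),
      ((((V.twist (V.Z g)).sum (V.twist (V.Z h))).Z k : U _) : Matrix _ _ ℂ) =
        Matrix.fromBlocks (((V.Z k : U ι) : Matrix ι ι ℂ).kronecker
          ((tinv (V.Z g) : U ι) : Matrix ι ι ℂ)) 0 0
          (((V.Z k : U ι) : Matrix ι ι ℂ).kronecker ((tinv (V.Z h) : U ι) : Matrix ι ι ℂ)) := by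
    intro k
    rw [sum_Z, twist_Z, twist_Z]
    rfl
  have hmat : ∀ w : FreeGroup (Fin N), ((V.twist (V.Z g)).sum (V.twist (V.Z h))).mat w =
      Matrix.fromBlocks ((V.mat w).kronecker (1 : Matrix ι ι ℂ)) 0 0
        ((V.mat w).kronecker (1 : Matrix ι ι ℂ)) := fun w => rfl
  constructor
  · rw [hval, blk_mulVec, tinv_mulVec, Matrix.mulVec_zero]
  · rw [hval, blk_vecMul, tinv_vecMul, Matrix.zero_vecMul]
  · rw [hval, blk_mulVec, tinv_mulVec, Matrix.mulVec_zero]
  · rw [hval, blk_vecMul, tinv_vecMul, Matrix.zero_vecMul]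
  · intro w
    rw [hmat, blk_mulVec, sumElim_dotProduct_sumElim, kron_coef, Matrix.mulVec_zero,
      zero_dotProduct, add_zero]
    rfl
  · intro w
    rw [hmat, blk_mulVec, sumElim_dotProduct_sumElim, kron_coef, Matrix.mulVec_zero,
      zero_dotProduct, zero_add]
    rfl
  · intro w
    rw [hmat, blk_mulVec, sumElim_dotProduct_sumElim, Matrix.mulVec_zero, dotProduct_zero,
      zero_dotProduct, add_zero]
  · intro w
    rw [hmat, blk_mulVec, sumElim_dotProduct_sumElim, Matrix.mulVec_zero, dotProduct_zero,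
      zero_dotProduct, add_zero]

end Pool.Agent.Helper45.HS
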