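import Pool.Agent.Helper45.HS.Mat
import Pool.Agent.Helper45.HS.Chi
import Pool.Agent.Helper45.HS.Tw
import Pool.Agent.Helper45.HS.Avoid

/-!
# HS-14 StepB: pairs that are not homologous

Let `n = toAdd (α (g⁻¹ h)) ≠ 0`. Replacing `α` by `α⁻¹` (`w ↦ (α w)⁻¹`, a homomorphism to a commutative group) we may assume `n = m > 0`, `m : ℕ`.
`V₁ = (V.twist (V.Z g)).sum (V.twist (V.Z h))` on `κ₁ = (ι × ι) ⊕ (ι × ι)`; `twist_quad`. `match_W` for `V₁` gives `W`, and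
`V₂ = (V₁.kr (Rep.cst φ i (1 : U (Fin m × (Fin m × κ₁))))).sum W` is matched; `quad_kr`, `quad_sum`. `V₀ = V₂.sum (chi_pair ... r)` (`quad_sum`,
`matched_sum`). Traces (`Rep.tr_sum`, `Rep.tr_kr`, `Rep.tr_cst`, `Rep.tr_twist`): with `d = card ι`, `e = m * (m * card κ₁)`:
`V₀.tr w = 2 d e V.tr w + W.tr w + (r ^ a + r ^ (-a))`, `a = toAdd (α w)`, and `card = 2 d² e + card(W) + 2`.
If `α w = 1` then `W.mat w = 1`, so `W.tr w = card(W)` and the difference is `2 d e (V.tr w - d) ≠ 0` for `1 ≠ w ∈ L N i`. If `a ≠ 0` then the difference is not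
zero by the choice of `r`: `avoid_unit` with `S = FreeGroup (Fin N)`, `n w = a`, `c w = card(V₀) - 2 d e V.tr w - W.tr w` (`W` does not depend on `r`).
-/

set_option autoImplicit false

namespace Pool.Agent.Helper45.HS

private theorem stepB_fin {N : ℕ} {φ : FreeGroup (Fin N) →* FreeGroup (Fin N)} {i : ℕ}
    {κ : Type} [Fintype κ] [DecidableEq κ] (V2 : Rep φ i κ) (t : FreeGroup (Fin N) → ℂ)
    (g h : FreeGroup (Fin N)) (α : FreeGroup (Fin N) →* Multiplicative ℤ)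
    (hα : ∀ j : Fin N, (j : ℕ) < i → α (φ (FreeGroup.of j)) = α (FreeGroup.of j))
    (D1 F1 D2 F2 : κ → ℂ) (hq : Quad V2 g h t D1 F1 D2 F2) (hm : Matched V2 g h)
    (hs : ∀ w ∈ L N i, w ≠ 1 → α w = 1 → V2.tr w ≠ (Fintype.card κ : ℂ)) :
    ∃ (κ : Type) (_ : Fintype κ) (_ : DecidableEq κ) (V0 : Rep φ i κ) (D1 F1 D2 F2 : κ → ℂ),
      Quad V0 g h t D1 F1 D2 F2 ∧ V0.Sep ∧ Matched V0 g h := by
  obtain ⟨r, hr⟩ := avoid_unit (S := FreeGroup (Fin N)) (fun w => Multiplicative.toAdd (α w))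
    (fun w => (Fintype.card (κ ⊕ (Unit ⊕ Unit)) : ℂ) - V2.tr w)
  obtain ⟨W', hW't, hW'm⟩ := chi_pair (φ := φ) (i := i) g h α hα r
  obtain ⟨E1, G1, E2, G2, hq0⟩ := quad_sum V2 W' g h t D1 F1 D2 F2 hq
  refine ⟨κ ⊕ (Unit ⊕ Unit), inferInstance, inferInstance, V2.sum W', E1, G1, E2, G2, hq0, ?_,
    matched_sum V2 W' g h hm hW'm⟩
  intro w hw hw1 heq
  rw [Rep.tr_sum, hW't] at heq
  by_cases ha : Multiplicative.toAdd (α w) = 0
  · have haw : α w = 1 := by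
      apply Multiplicative.toAdd.injective
      rw [ha, toAdd_one]
    rw [ha, neg_zero, zpow_zero] at heq
    apply hs w hw hw1 haw
    simp only [Fintype.card_sum, Fintype.card_unit, Units.val_one] at heq
    push_cast at heq
    linear_combination heq
  · apply hr w ha
    rw [eq_sub_iff_add_eq]
    linear_combination heq

set_option synthInstance.maxSize 4096 in
private theorem stepB_pos {N : ℕ} {φ : FreeGroup (Fin N) →* FreeGroup (Fin N)} {i : ℕ} {ι : Type}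
    [Fintype ι] [DecidableEq ι] [Nonempty ι] (V : Rep φ i ι) (hV : V.Sep)
    (g h : FreeGroup (Fin N)) (α : FreeGroup (Fin N) →* Multiplicative ℤ)
    (hα : ∀ j : Fin N, (j : ℕ) < i → α (φ (FreeGroup.of j)) = α (FreeGroup.of j))
    (m : ℕ) (hm : 0 < m) (hgh : Multiplicative.toAdd (α (g⁻¹ * h)) = (m : ℤ)) :
    ∃ (κ : Type) (_ : Fintype κ) (_ : DecidableEq κ) (V0 : Rep φ i κ) (D1 F1 D2 F2 : κ → ℂ),
      Quad V0 g h V.tr D1 F1 D2 F2 ∧ V0.Sep ∧ Matched V0 g h := by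
  obtain ⟨D1, F1, D2, F2, hq⟩ := twist_quad V g h
  obtain ⟨W, hW1, hW2⟩ := match_W ((V.twist (V.Z g)).sum (V.twist (V.Z h))) g h α hα m hm hgh
  have : Nonempty (Fin m) := ⟨⟨0, hm⟩⟩
  obtain ⟨D1', F1', D2', F2', hq'⟩ :=
    quad_kr (κ := Fin m × (Fin m × ((ι × ι) ⊕ (ι × ι)))) ((V.twist (V.Z g)).sum (V.twist (V.Z h)))
      g h V.tr D1 F1 D2 F2 hq
  obtain ⟨D1'', F1'', D2'', F2'', hq''⟩ := quad_sum _ W g h V.tr D1' F1' D2' F2' hq'
  refine stepB_fin _ V.tr g h α hα D1'' F1'' D2'' F2'' hq'' hW2 ?_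
  intro w hw hw1 haw heq
  rw [Rep.tr_sum, Rep.tr_kr, Rep.tr_cst, Rep.tr_sum, Rep.tr_twist, Rep.tr_twist] at heq
  have hWt : W.tr w = (Fintype.card ((Fin m × ((ι × ι) ⊕ (ι × ι))) ×
      (Fin m × ((ι × ι) ⊕ (ι × ι)))) : ℂ) := by
    unfold Rep.tr
    rw [hW1 w haw, Matrix.trace_one]
  rw [hWt] at heq
  simp only [Fintype.card_sum, Fintype.card_prod, Fintype.card_fin] at heq
  push_cast at heq
  have hd : (Fintype.card ι : ℂ) ≠ 0 := by
    exact_mod_cast Fintype.card_ne_zero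
  have hmC : (m : ℂ) ≠ 0 := by exact_mod_cast hm.ne'
  have h1 : ((m : ℂ) * m * (Fintype.card ι) ^ 3) * (V.tr w - Fintype.card ι) = 0 := by
    linear_combination heq / 4
  rcases mul_eq_zero.1 h1 with h2 | h2
  · exact absurd h2 (mul_ne_zero (mul_ne_zero hmC hmC) (pow_ne_zero _ hd))
  · exact hV w hw hw1 (sub_eq_zero.1 h2)

theorem stepB {N : ℕ} {φ : FreeGroup (Fin N) →* FreeGroup (Fin N)} {i : ℕ} {ι : Type} [Fintype ι]
    [DecidableEq ι] [Nonempty ι] (V : Rep φ i ι) (hV : V.Sep) (g h : FreeGroup (Fin N))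
    (α : FreeGroup (Fin N) →* Multiplicative ℤ)
    (hα : ∀ j : Fin N, (j : ℕ) < i → α (φ (FreeGroup.of j)) = α (FreeGroup.of j))
    (hgh : α (g⁻¹ * h) ≠ 1) :
    ∃ (κ : Type) (_ : Fintype κ) (_ : DecidableEq κ) (V0 : Rep φ i κ) (D1 F1 D2 F2 : κ → ℂ),
      Quad V0 g h V.tr D1 F1 D2 F2 ∧ V0.Sep ∧ Matched V0 g h := by
  have hne : Multiplicative.toAdd (α (g⁻¹ * h)) ≠ 0 := by
    intro h0
    apply hgh
    apply Multiplicative.toAdd.injective
    rw [h0, toAdd_one]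
  rcases lt_or_gt_of_ne hne with h1 | h1
  · let β : FreeGroup (Fin N) →* Multiplicative ℤ := α⁻¹
    have hβ : ∀ w, β w = (α w)⁻¹ := fun w => rfl
    refine stepB_pos V hV g h β (fun j hj => ?_)
      (-(Multiplicative.toAdd (α (g⁻¹ * h)))).toNat (by omega) ?_
    · rw [hβ, hβ, hα j hj]
    · rw [hβ, toAdd_inv]
      exact (Int.toNat_of_nonneg (by omega)).symm
  · refine stepB_pos V hV g h α hα (Multiplicative.toAdd (α (g⁻¹ * h))).toNat (by omega) ?_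
    exact (Int.toNat_of_nonneg (by omega)).symm

end Pool.Agent.Helper45.HS
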