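import Pool.Agent.Helper45.HS.StepA
import Pool.Agent.Helper45.HS.StepB
import Pool.Agent.Helper45.HS.Ext

/-!
# HS-15 Main: induction over the letters

By induction on `i` from `m` to `N` (`Nat.le_induction`): `HasSep φ i`. Step `i → i + 1` (`i < N`, as a letter `i : Fin N`): `φ (of j) ∈ L N i` for `j < i`: if
`j < m` by `hbase` and `L_mono`; if `m ≤ j < i`: `φ (of j) = u j * of j * v j ∈ L N (j + 1) ≤ L N i`. `V` from the induction hypothesis;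
`stepA` or `stepB` with `g = (u i)⁻¹`, `h = v i` (`g⁻¹ * h = u i * v i`; in case (a) `v i = f⁻¹ * (u i)⁻¹ * φ f`), then `ext_level` with `c = V.tr`:
`c 1 = card ι ≠ 0`, `c w ≠ card ι = c 1` by `V.Sep`.
-/

set_option autoImplicit false

namespace Pool.Agent.Helper45.HS

theorem hasSep_of {N : ℕ} (φ : FreeGroup (Fin N) →* FreeGroup (Fin N)) (m : ℕ) (hbase : HasSep φ m)
    (hbL : ∀ j : Fin N, (j : ℕ) < m → φ (FreeGroup.of j) ∈ L N m)
    (u v : Fin N → FreeGroup (Fin N)) (hu : ∀ i : Fin N, m ≤ (i : ℕ) → u i ∈ L N (i : ℕ))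
    (hv : ∀ i : Fin N, m ≤ (i : ℕ) → v i ∈ L N (i : ℕ))
    (hφ : ∀ i : Fin N, m ≤ (i : ℕ) → φ (FreeGroup.of i) = u i * FreeGroup.of i * v i)
    (hst : ∀ i : Fin N, m ≤ (i : ℕ) → (∃ f ∈ L N (i : ℕ), v i = f⁻¹ * (u i)⁻¹ * φ f) ∨
      ∃ α : FreeGroup (Fin N) →* Multiplicative ℤ,
        (∀ j : Fin N, (j : ℕ) < (i : ℕ) → α (φ (FreeGroup.of j)) = α (FreeGroup.of j)) ∧
          α (u i * v i) ≠ 1) (k : ℕ) (hk : m ≤ k) (hkN : k ≤ N) :
    HasSep φ k := by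
  induction k, hk using Nat.le_induction with
  | base => exact hbase
  | succ k hk ih =>
    have hkN' : k < N := hkN
    obtain ⟨ι, _, _, _, V, hV⟩ := ih (le_of_lt hkN')
    have htr1 : V.tr 1 = (Fintype.card ι : ℂ) := by
      unfold Rep.tr Rep.mat
      rw [map_one, Units.val_one, Matrix.trace_one]
    have hc1 : V.tr 1 ≠ 0 := by
      rw [htr1]
      exact_mod_cast Fintype.card_ne_zero
    have hc : ∀ w ∈ L N k, w ≠ 1 → V.tr w ≠ V.tr 1 := by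
      intro w hw hw1
      rw [htr1]
      exact hV w hw hw1
    have hL : ∀ j : Fin N, (j : ℕ) < k → φ (FreeGroup.of j) ∈ L N k := by
      intro j hj
      by_cases hjm : (j : ℕ) < m
      · exact L_mono hk (hbL j hjm)
      · have hmj : m ≤ (j : ℕ) := not_lt.mp hjm
        rw [hφ j hmj]
        have h1 : FreeGroup.of j ∈ L N k :=
          Subgroup.subset_closure ⟨j, hj, rfl⟩
        exact mul_mem (mul_mem (L_mono (le_of_lt hj) (hu j hmj)) h1)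
          (L_mono (le_of_lt hj) (hv j hmj))
    have key : ∃ (κ : Type) (_ : Fintype κ) (_ : DecidableEq κ) (V0 : Rep φ k κ)
        (D1 F1 D2 F2 : κ → ℂ), Quad V0 (u ⟨k, hkN'⟩)⁻¹ (v ⟨k, hkN'⟩) V.tr D1 F1 D2 F2 ∧ V0.Sep ∧
          Matched V0 (u ⟨k, hkN'⟩)⁻¹ (v ⟨k, hkN'⟩) := by
      rcases hst ⟨k, hkN'⟩ hk with ⟨f, hf, hvf⟩ | ⟨α, hα, huv⟩
      · exact stepA V hV _ _ f hf hvf
      · refine stepB V hV _ _ α hα ?_
        rw [inv_inv]
        exact huv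
    obtain ⟨κ, _, _, V0, D1, F1, D2, F2, hq, hS, hM⟩ := key
    exact ext_level ⟨k, hkN'⟩ V0 hS (u ⟨k, hkN'⟩) (v ⟨k, hkN'⟩) (hu ⟨k, hkN'⟩ hk) (hv ⟨k, hkN'⟩ hk)
      (hφ ⟨k, hkN'⟩ hk) hL hM V.tr D1 F1 D2 F2 hq hc1 hc

end Pool.Agent.Helper45.HS
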