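import Pool.Agent.Helper45.HS.Defs

/-!
# HS-03 Perm

If a permutation `e` of the index set carries the matrix `Y` to the matrix `X` then they are conjugate by the permutation matrix
`S p q = if p = e q then 1 else 0`: `(X S) p q = X p (e q)`, `(S Y) p q = Y (e⁻¹ p) q = X p (e q)`. The inverse of `S` is
`S' p q = if e p = q then 1 else 0`.
-/

set_option autoImplicit false

namespace Pool.Agent.Helper45.HS

theorem conj_of_equiv {ι : Type} [Fintype ι] [DecidableEq ι] (e : ι ≃ ι) (X Y : U ι)
    (h : ∀ p q, (X : Matrix ι ι ℂ) (e p) (e q) = (Y : Matrix ι ι ℂ) p q) :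
    ∃ S : U ι, X * S = S * Y := by
  have key : ∀ A : Matrix ι ι ℂ, (∀ p q, A p q = if p = e q then 1 else 0) →
      (X : Matrix ι ι ℂ) * A = A * (Y : Matrix ι ι ℂ) := by
    intro A hA
    ext p q
    obtain ⟨p', rfl⟩ := e.surjective p
    rw [Matrix.mul_apply, Matrix.mul_apply, Finset.sum_eq_single (e q),
      Finset.sum_eq_single p']
    · rw [hA, hA, if_pos rfl, if_pos rfl, mul_one, one_mul]
      exact h p' q
    · intro r _ hr
      have h1 : e p' ≠ e r := fun h2 => hr (e.injective h2).symm
      rw [hA, if_neg h1, zero_mul]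
    · intro h1
      exact absurd (Finset.mem_univ _) h1
    · intro r _ hr
      rw [hA, if_neg hr, mul_zero]
    · intro h1
      exact absurd (Finset.mem_univ _) h1
  refine ⟨⟨fun p q => if p = e q then 1 else 0, fun p q => if e p = q then 1 else 0, ?_, ?_⟩, ?_⟩
  · ext p q
    rw [Matrix.mul_apply, Finset.sum_eq_single (e.symm p)]
    · by_cases h1 : p = q
      · subst h1
        simp
      · rw [Matrix.one_apply_ne h1]
        simp [h1]
    · intro r _ hr
      have h1 : p ≠ e r := fun h2 => hr (by rw [h2, Equiv.symm_apply_apply])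
      simp [h1]
    · intro h1
      exact absurd (Finset.mem_univ _) h1
  · ext p q
    rw [Matrix.mul_apply, Finset.sum_eq_single (e p)]
    · by_cases h1 : p = q
      · subst h1
        simp
      · rw [Matrix.one_apply_ne h1]
        simp [h1]
    · intro r _ hr
      have h1 : e p ≠ r := fun h2 => hr h2.symm
      simp [h1]
    · intro h1
      exact absurd (Finset.mem_univ _) h1
  · apply Units.ext
    exact key _ (fun p q => rfl)

end Pool.Agent.Helper45.HS
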