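import Pool.Agent.Helper45.HS.Root
import Pool.Agent.Helper45.HS.Perm
import Pool.Agent.Helper45.HS.Ops

/-!
# HS-06 Mat: the matching trick

Let `P = V.Z g`, `Q = V.Z h` (unit matrices on `κ`), `P' ^ m = kronU (1, P)`, `Q' ^ m = kronU (1, Q)` (`exists_root`),
`a = - toAdd (α g)`. `W = Rep.ab i α hα (kronU (Q'⁻¹, P')) (kronU (Q' ^ (m - a), P' ^ a))` (integer powers; they commute: both are
`kronU` of pairs of powers of `Q'` and `P'`). Then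
`W.Z g = kronU (Q'⁻¹, P') ^ (α g) * kronU (Q' ^ (m - a), P' ^ a) = kronU (Q' ^ m, 1) = kronU (kronU (1, Q), 1)` and
`W.Z h = kronU (1, P' ^ m) = kronU (1, kronU (1, P))` because `α h + a = α h - α g = m`. If `α w = 1` then `W.ρ w = 1`.
So (by `Z_sum`, `Z_kr`, `Z_cst`) on `(κ × (Fin m × (Fin m × κ))) ⊕ ((Fin m × κ) × (Fin m × κ))` the matrix of `g t` is
`sumU (kronU (P, 1), kronU (kronU (1, Q), 1))` and the matrix of `h t` is `sumU (kronU (Q, 1), kronU (1, kronU (1, P)))`.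
`conj_of_equiv` with `e`: `inl (a, (j, (k, c))) ↦ inr ((j, a), (k, c))`, `inr ((j, a), (k, c)) ↦ inl (c, (k, (j, a)))` (its inverse:
`inr ((j, a), (k, c)) ↦ inl (a, (j, (k, c)))`, `inl (c, (k, (j, a))) ↦ inr ((j, a), (k, c))`). Entries: on `inl` the matrix of `h t` acts by `Q`
on `a`, the matrix of `g t` acts on `inr ((j, a), (k, c))` by `Q` on `a`; on `inr ((j, a), (k, c))` the matrix of `h t` acts by `P` on `c`, the
matrix of `g t` acts on `inl (c, (k, (j, a)))` by `P` on `c`. (The entries of `1 ⊗ ·` are `if j = j' then · else 0` etc.: split into cases or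
compare products of `if`s.)
-/

set_option autoImplicit false

namespace Pool.Agent.Helper45.HS

open Matrix

variable {N : ℕ} {φ : FreeGroup (Fin N) →* FreeGroup (Fin N)} {i : ℕ} {κ : Type} [Fintype κ] [DecidableEq κ]

/-- the unit matrix on a product -/
private theorem mat_one {ι₁ ι₂ : Type} [DecidableEq ι₁] [DecidableEq ι₂] (a a' : ι₁) (b b' : ι₂) :
    (1 : Matrix (ι₁ × ι₂) (ι₁ × ι₂) ℂ) (a, b) (a', b') =
      (1 : Matrix ι₁ ι₁ ℂ) a a' * (1 : Matrix ι₂ ι₂ ℂ) b b' := by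
  by_cases h1 : a = a'
  · subst h1
    by_cases h2 : b = b'
    · subst h2
      simp
    · rw [Matrix.one_apply_ne h2, Matrix.one_apply_ne (fun h => h2 (Prod.ext_iff.1 h).2), mul_zero]
  · rw [Matrix.one_apply_ne h1, Matrix.one_apply_ne (fun h => h1 (Prod.ext_iff.1 h).1), zero_mul]

private theorem mat_kron {ι₁ ι₂ : Type} [Fintype ι₁] [DecidableEq ι₁] [Fintype ι₂] [DecidableEq ι₂]
    (X : U ι₁) (Y : U ι₂) (a a' : ι₁) (b b' : ι₂) :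
    ((kronU (X, Y) : U (ι₁ × ι₂)) : Matrix (ι₁ × ι₂) (ι₁ × ι₂) ℂ) (a, b) (a', b') =
      (X : Matrix ι₁ ι₁ ℂ) a a' * (Y : Matrix ι₂ ι₂ ℂ) b b' := rfl

private theorem mat_sum_ll {ι₁ ι₂ : Type} [Fintype ι₁] [DecidableEq ι₁] [Fintype ι₂]
    [DecidableEq ι₂] (X : U ι₁) (Y : U ι₂) (a a' : ι₁) :
    ((sumU (X, Y) : U (ι₁ ⊕ ι₂)) : Matrix (ι₁ ⊕ ι₂) (ι₁ ⊕ ι₂) ℂ) (Sum.inl a) (Sum.inl a') =
      (X : Matrix ι₁ ι₁ ℂ) a a' := rfl

private theorem mat_sum_rr {ι₁ ι₂ : Type} [Fintype ι₁] [DecidableEq ι₁] [Fintype ι₂]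
    [DecidableEq ι₂] (X : U ι₁) (Y : U ι₂) (b b' : ι₂) :
    ((sumU (X, Y) : U (ι₁ ⊕ ι₂)) : Matrix (ι₁ ⊕ ι₂) (ι₁ ⊕ ι₂) ℂ) (Sum.inr b) (Sum.inr b') =
      (Y : Matrix ι₂ ι₂ ℂ) b b' := rfl

private theorem mat_sum_lr {ι₁ ι₂ : Type} [Fintype ι₁] [DecidableEq ι₁] [Fintype ι₂]
    [DecidableEq ι₂] (X : U ι₁) (Y : U ι₂) (a : ι₁) (b : ι₂) :
    ((sumU (X, Y) : U (ι₁ ⊕ ι₂)) : Matrix (ι₁ ⊕ ι₂) (ι₁ ⊕ ι₂) ℂ) (Sum.inl a) (Sum.inr b) = 0 := rfl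

private theorem mat_sum_rl {ι₁ ι₂ : Type} [Fintype ι₁] [DecidableEq ι₁] [Fintype ι₂]
    [DecidableEq ι₂] (X : U ι₁) (Y : U ι₂) (a : ι₁) (b : ι₂) :
    ((sumU (X, Y) : U (ι₁ ⊕ ι₂)) : Matrix (ι₁ ⊕ ι₂) (ι₁ ⊕ ι₂) ℂ) (Sum.inr b) (Sum.inl a) = 0 := rfl

/-- the permutation of the index set -/
private def mat_e (m : ℕ) (κ : Type) :
    (κ × (Fin m × (Fin m × κ))) ⊕ ((Fin m × κ) × (Fin m × κ)) ≃
      (κ × (Fin m × (Fin m × κ))) ⊕ ((Fin m × κ) × (Fin m × κ)) where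
  toFun
    | Sum.inl (a, (j, (k, c))) => Sum.inr ((j, a), (k, c))
    | Sum.inr ((j, a), (k, c)) => Sum.inl (c, (k, (j, a)))
  invFun
    | Sum.inr ((j, a), (k, c)) => Sum.inl (a, (j, (k, c)))
    | Sum.inl (c, (k, (j, a))) => Sum.inr ((j, a), (k, c))
  left_inv := by
    rintro (⟨a, j, k, c⟩ | ⟨⟨j, a⟩, k, c⟩) <;> rfl
  right_inv := by
    rintro (⟨a, j, k, c⟩ | ⟨⟨j, a⟩, k, c⟩) <;> rfl

private theorem mat_conj (m : ℕ) (P Q : U κ) :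
    ∃ S : U ((κ × (Fin m × (Fin m × κ))) ⊕ ((Fin m × κ) × (Fin m × κ))),
      sumU (kronU (P, (1 : U (Fin m × (Fin m × κ)))),
        kronU (kronU ((1 : U (Fin m)), Q), (1 : U (Fin m × κ)))) * S =
      S * sumU (kronU (Q, (1 : U (Fin m × (Fin m × κ)))),
        kronU ((1 : U (Fin m × κ)), kronU ((1 : U (Fin m)), P))) := by
  refine conj_of_equiv (mat_e m κ) _ _ ?_
  rintro (⟨a, j, k, c⟩ | ⟨⟨j, a⟩, k, c⟩) (⟨a', j', k', c'⟩ | ⟨⟨j', a'⟩, k', c'⟩)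
  · refine (mat_sum_rr _ _ ((j, a), (k, c)) ((j', a'), (k', c'))).trans
      (Eq.trans ?_ (mat_sum_ll _ _ (a, (j, (k, c))) (a', (j', (k', c')))).symm)
    rw [mat_kron, mat_kron, mat_kron, Units.val_one, Units.val_one, Units.val_one, mat_one,
      mat_one, mat_one]
    ring
  · rfl
  · rfl
  · refine (mat_sum_ll _ _ (c, (k, (j, a))) (c', (k', (j', a')))).trans
      (Eq.trans ?_ (mat_sum_rr _ _ ((j, a), (k, c)) ((j', a'), (k', c'))).symm)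
    rw [mat_kron, mat_kron, mat_kron, Units.val_one, Units.val_one, Units.val_one, mat_one,
      mat_one]
    ring

theorem match_W (V : Rep φ i κ) (g h : FreeGroup (Fin N)) (α : FreeGroup (Fin N) →* Multiplicative ℤ)
    (hα : ∀ j : Fin N, (j : ℕ) < i → α (φ (FreeGroup.of j)) = α (FreeGroup.of j))
    (m : ℕ) (hm : 0 < m) (hgh : Multiplicative.toAdd (α (g⁻¹ * h)) = (m : ℤ)) :
    ∃ W : Rep φ i ((Fin m × κ) × (Fin m × κ)), (∀ w, α w = 1 → W.mat w = 1) ∧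
      Matched ((V.kr (Rep.cst φ i (1 : U (Fin m × (Fin m × κ))))).sum W) g h := by
  obtain ⟨P', hP'⟩ := exists_root m hm (V.Z g)
  obtain ⟨Q', hQ'⟩ := exists_root m hm (V.Z h)
  obtain ⟨ng, hng⟩ : ∃ ng : ℤ, ng = Multiplicative.toAdd (α g) := ⟨_, rfl⟩
  obtain ⟨nh, hnh⟩ : ∃ nh : ℤ, nh = Multiplicative.toAdd (α h) := ⟨_, rfl⟩
  have hm' : nh = ng + m := by
    rw [map_mul, map_inv, toAdd_mul, toAdd_inv, ← hng, ← hnh] at hgh
    omega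
  have hcomm : Commute (kronU (Q'⁻¹, P')) (kronU (Q' ^ ((m : ℤ) + ng), P' ^ (-ng))) := by
    refine Commute.map (f := kronU) ?_
    refine Prod.ext ?_ ?_
    · exact ((Commute.refl Q').inv_left.zpow_right _).eq
    · exact ((Commute.refl P').zpow_right _).eq
  have hpow : ∀ n : ℤ, (kronU (Q'⁻¹, P')) ^ n * kronU (Q' ^ ((m : ℤ) + ng), P' ^ (-ng)) =
      kronU (Q' ^ ((m : ℤ) + ng - n), P' ^ (n - ng)) := by
    intro n
    rw [← map_zpow, ← map_mul]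
    congr 1
    refine Prod.ext ?_ ?_
    · show Q'⁻¹ ^ n * Q' ^ ((m : ℤ) + ng) = _
      rw [_root_.inv_zpow, ← _root_.zpow_neg, ← _root_.zpow_add]
      congr 1
      ring
    · show P' ^ n * P' ^ (-ng) = _
      rw [← _root_.zpow_add]
      congr 1
  have hZ : ∀ w : FreeGroup (Fin N), (Rep.ab i α hα (kronU (Q'⁻¹, P'))
      (kronU (Q' ^ ((m : ℤ) + ng), P' ^ (-ng))) hcomm).Z w =
      kronU (Q' ^ ((m : ℤ) + ng - Multiplicative.toAdd (α w)),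
        P' ^ (Multiplicative.toAdd (α w) - ng)) := by
    intro w
    rw [← hpow]
    rfl
  refine ⟨Rep.ab i α hα (kronU (Q'⁻¹, P')) (kronU (Q' ^ ((m : ℤ) + ng), P' ^ (-ng))) hcomm,
    ?_, ?_⟩
  · intro w hw
    have h1 : (Rep.ab i α hα (kronU (Q'⁻¹, P'))
      (kronU (Q' ^ ((m : ℤ) + ng), P' ^ (-ng))) hcomm).ρ w =
        zpowersHom (U ((Fin m × κ) × (Fin m × κ))) (kronU (Q'⁻¹, P')) (α w) := rfl
    unfold Rep.mat
    rw [h1, hw, map_one, Units.val_one]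
  · unfold Matched
    rw [Rep.Z_sum, Rep.Z_sum, Rep.Z_kr, Rep.Z_kr, Rep.Z_cst, Rep.Z_cst, hZ, hZ, ← hng, ← hnh]
    have e1 : Q' ^ ((m : ℤ) + ng - ng) = kronU (1, V.Z h) := by
      rw [add_sub_cancel_right, zpow_natCast, hQ']
    have e2 : P' ^ (ng - ng) = 1 := by rw [sub_self, zpow_zero]
    have e3 : Q' ^ ((m : ℤ) + ng - nh) = 1 := by
      rw [hm', show (m : ℤ) + ng - (ng + m) = 0 by ring, zpow_zero]
    have e4 : P' ^ (nh - ng) = kronU (1, V.Z g) := by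
      rw [hm', add_sub_cancel_left, zpow_natCast, hP']
    rw [e1, e2, e3, e4]
    exact mat_conj m (V.Z g) (V.Z h)

end Pool.Agent.Helper45.HS
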