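import Pool.Agent.Helper45.HS.Defs

/-!
# HS-01 Rel

(1) Two homomorphisms that agree on the letters `< i` agree on `L N i`: `Subgroup.closure_induction` (or `MonoidHom.eqOn_closure`).
(2) The relation of a representation of level `i` for all `w ∈ L N i`: `w ↦ ρ (φ w)` and `w ↦ T ρ(w) T⁻¹` (`MulAut.conj T`) are
homomorphisms that agree on the letters `< i`; use (1).
(3) `L N i ≤ L N j` for `i ≤ j` (`Subgroup.closure_mono`).
-/

set_option autoImplicit false

namespace Pool.Agent.Helper45.HS

variable {N : ℕ} {φ : FreeGroup (Fin N) →* FreeGroup (Fin N)} {i : ℕ} {ι : Type} [Fintype ι] [DecidableEq ι]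

theorem agree {G : Type} [Group G] (f g : FreeGroup (Fin N) →* G) (i : ℕ)
    (h : ∀ j : Fin N, (j : ℕ) < i → f (FreeGroup.of j) = g (FreeGroup.of j)) :
    ∀ w ∈ L N i, f w = g w := by
  intro w hw
  unfold L at hw
  induction hw using Subgroup.closure_induction with
  | mem x hx =>
    obtain ⟨j, hj, rfl⟩ := hx
    exact h j hj
  | one => rw [map_one, map_one]
  | mul x y _ _ hx hy => rw [map_mul, map_mul, hx, hy]
  | inv x _ hx => rw [map_inv, map_inv, hx]

theorem Rep.rel_mem (V : Rep φ i ι) : ∀ w ∈ L N i, V.ρ (φ w) = V.T * V.ρ w * V.T⁻¹ := by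
  have h := agree (V.ρ.comp φ) ((MulAut.conj V.T).toMonoidHom.comp V.ρ) i (fun j hj => V.rel j hj)
  exact h

theorem L_mono {i j : ℕ} (h : i ≤ j) : L N i ≤ L N j :=
  Subgroup.closure_mono (Set.image_mono fun _ hk => lt_of_lt_of_le hk h)

end Pool.Agent.Helper45.HS
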