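import Pool.Agent.Helper45.HS.Defs

/-!
# HS-02 Root

Every unit matrix `P` has, with multiplicity `m`, an `m`-th root: a unit matrix `R` on `Fin m × κ` with `R ^ m = 1 ⊗ P`.
Block companion matrix. Suggested proof: write `m = n + 1`. Think of `Fin m × κ → ℂ` as functions `f : Fin m → (κ → ℂ)`;
`(R f) (j) = f (j - 1)` for `j ≠ 0` and `(R f) 0 = P (f (last))`. As a matrix:
`R (j, a) (k, b) = if j = 0 then (if k = last then P a b else 0) else (if j = k + 1 (castSucc / succ) ∧ a = b then 1 else 0)`.
One way to see `R ^ m = 1 ⊗ P` without computing all powers: for `s ≤ m`, `R ^ s` maps the block `k` to the block `k + s` by the identity if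
`k + s < m` and to the block `k + s - m` by `P` otherwise (induction on `s`): state this for the matrix entries
`(R ^ s) (j, a) (k, b) = if (j : ℕ) = k + s then (if a = b then 1 else 0) else if (j : ℕ) + m = k + s then P a b else 0` for `s ≤ m`, and
for `s = m` this is `kronU (1, P)`. (For `s ≤ m` at most one of the two cases holds, as `j < m ≤ m + k + s`.)
Invertibility: `R * R ^ (m-1) = R ^ m = 1 ⊗ P` is a unit, so `R` is a unit (`isUnit_of_mul_isUnit_left`, matrices over a field:
`Matrix.isUnit_iff_isUnit_det`, `IsUnit` of `R ^ m` gives `IsUnit` of `R`: `isUnit_pow_iff`). Any other proof is welcome.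
-/

set_option autoImplicit false

namespace Pool.Agent.Helper45.HS

/-- The block companion matrix of `A`. -/
noncomputable def rootM {κ : Type} [Fintype κ] [DecidableEq κ] (m : ℕ) (A : Matrix κ κ ℂ) :
    Matrix (Fin m × κ) (Fin m × κ) ℂ :=
  fun p q => if (p.1 : ℕ) = q.1 + 1 then (if p.2 = q.2 then 1 else 0) else
    if (p.1 : ℕ) + m = q.1 + 1 then A p.2 q.2 else 0

theorem pow_root {κ : Type} [Fintype κ] [DecidableEq κ] (m : ℕ) (hm : 0 < m) (A : Matrix κ κ ℂ) :
    ∀ s : ℕ, s ≤ m → ∀ (j : Fin m) (a : κ) (k : Fin m) (b : κ), (rootM m A ^ s) (j, a) (k, b) =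
      if (j : ℕ) = k + s then (if a = b then 1 else 0) else if (j : ℕ) + m = k + s then A a b else 0 := by
  intro s
  induction s with
  | zero =>
    intro _ j a k b
    have h1 : ¬ (j : ℕ) + m = k + 0 := by
      have := k.2
      omega
    rw [pow_zero, if_neg h1, Matrix.one_apply]
    by_cases hjk : j = k
    · subst hjk
      rw [if_pos (add_zero _).symm]
      by_cases hab : a = b
      · rw [if_pos hab, if_pos (by rw [hab])]
      · rw [if_neg hab, if_neg (fun h => hab (Prod.ext_iff.1 h).2)]
    · rw [if_neg (fun h => hjk (Prod.ext_iff.1 h).1), if_neg (fun h => hjk (Fin.ext (by omega)))]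
  | succ s ih =>
    intro hs j a k b
    rw [pow_succ', Matrix.mul_apply, Fintype.sum_prod_type]
    have hj := j.2
    have hk := k.2
    by_cases hj0 : (j : ℕ) = 0
    · rw [Finset.sum_eq_single (⟨m - 1, by omega⟩ : Fin m)]
      · have h1 : ∀ c : κ, rootM m A (j, a) (⟨m - 1, by omega⟩, c) = A a c := by
          intro c
          unfold rootM
          rw [if_neg (by show ¬ (j : ℕ) = m - 1 + 1; omega), if_pos (by show (j : ℕ) + m = m - 1 + 1; omega)]
        have h2 : ∀ c : κ, (rootM m A ^ s) (⟨m - 1, by omega⟩, c) (k, b) =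
            if m - 1 = (k : ℕ) + s then (if c = b then 1 else 0) else 0 := by
          intro c
          rw [ih (by omega)]
          by_cases h3 : m - 1 = (k : ℕ) + s
          · rw [if_pos h3, if_pos h3]
          · rw [if_neg h3, if_neg h3, if_neg (by show ¬ m - 1 + m = (k : ℕ) + s; omega)]
        rw [Finset.sum_congr rfl fun c _ => by rw [h1, h2]]
        by_cases h3 : m - 1 = (k : ℕ) + s
        · rw [if_neg (by omega), if_pos (by omega)]
          simp [h3]
        · rw [if_neg (by omega), if_neg (by omega)]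
          simp [h3]
      · intro l _ hl
        have hl' : (l : ℕ) ≠ m - 1 := fun h => hl (Fin.ext h)
        refine Finset.sum_eq_zero fun c _ => ?_
        have h1 : rootM m A (j, a) (l, c) = 0 := by
          unfold rootM
          rw [if_neg (by show ¬ (j : ℕ) = l + 1; omega), if_neg (by show ¬ (j : ℕ) + m = l + 1; omega)]
        rw [h1, zero_mul]
      · intro h
        exact absurd (Finset.mem_univ _) h
    · rw [Finset.sum_eq_single (⟨j - 1, by omega⟩ : Fin m)]
      · have h1 : ∀ c : κ, rootM m A (j, a) (⟨j - 1, by omega⟩, c) = if a = c then 1 else 0 := by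
          intro c
          unfold rootM
          rw [if_pos (by show (j : ℕ) = j - 1 + 1; omega)]
        rw [Finset.sum_congr rfl fun c _ => by rw [h1]]
        rw [Finset.sum_eq_single a]
        · rw [if_pos rfl, one_mul, ih (by omega)]
          by_cases h3 : (j : ℕ) = (k : ℕ) + (s + 1)
          · rw [if_pos h3, if_pos (by show (j : ℕ) - 1 = (k : ℕ) + s; omega)]
          · rw [if_neg h3, if_neg (by show ¬ (j : ℕ) - 1 = (k : ℕ) + s; omega)]
            by_cases h4 : (j : ℕ) + m = (k : ℕ) + (s + 1)
            · rw [if_pos h4, if_pos (by show (j : ℕ) - 1 + m = (k : ℕ) + s; omega)]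
            · rw [if_neg h4, if_neg (by show ¬ (j : ℕ) - 1 + m = (k : ℕ) + s; omega)]
        · intro c _ hc
          rw [if_neg (Ne.symm hc), zero_mul]
        · intro h
          exact absurd (Finset.mem_univ _) h
      · intro l _ hl
        have hl' : (l : ℕ) ≠ j - 1 := fun h => hl (Fin.ext h)
        refine Finset.sum_eq_zero fun c _ => ?_
        have hl2 := l.2
        have h1 : rootM m A (j, a) (l, c) = 0 := by
          unfold rootM
          rw [if_neg (by show ¬ (j : ℕ) = l + 1; omega), if_neg (by show ¬ (j : ℕ) + m = l + 1; omega)]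
        rw [h1, zero_mul]
      · intro h
        exact absurd (Finset.mem_univ _) h

theorem exists_root {κ : Type} [Fintype κ] [DecidableEq κ] (m : ℕ) (hm : 0 < m) (P : U κ) :
    ∃ R : U (Fin m × κ), R ^ m = kronU (1, P) := by
  obtain ⟨A, hA⟩ : ∃ A : Matrix κ κ ℂ, A = (P : Matrix κ κ ℂ) := ⟨_, rfl⟩
  have hpow := pow_root m hm A
  have h1 : (rootM m A) ^ m = ((kronU (1, P) : U (Fin m × κ)) : Matrix (Fin m × κ) (Fin m × κ) ℂ) := by
    ext ⟨j, a⟩ ⟨k, b⟩
    have h2 := hpow m le_rfl j a k b
    rw [h2]
    show _ = (1 : Matrix (Fin m) (Fin m) ℂ) j k * (P : Matrix κ κ ℂ) a b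
    rw [← hA]
    have h3 : ¬ (j : ℕ) = k + m := by
      have := j.2
      omega
    rw [if_neg h3]
    by_cases hjk : j = k
    · subst hjk
      rw [if_pos rfl, Matrix.one_apply_eq, one_mul]
    · rw [if_neg, Matrix.one_apply_ne hjk, zero_mul]
      intro h4
      exact hjk (Fin.ext (by omega))
  have hu : IsUnit (rootM m A) := by
    rw [← isUnit_pow_iff hm.ne', h1]
    exact Units.isUnit _
  refine ⟨hu.unit, ?_⟩
  apply Units.ext
  rw [Units.val_pow_eq_pow_val]
  exact h1

end Pool.Agent.Helper45.HS
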