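import Pool.Agent.Helper45.HS.Ops
import Pool.Agent.Helper45.HS.Tw
import Pool.Agent.Helper45.HS.Rel

/-!
# HS-13 StepA: conjugate pairs

`V₀ = (V.twist (V.Z g)).sum (V.twist (V.Z h))`. `Quad` is `twist_quad`. Traces: `V₀.tr w = 2 d V.tr w`, dimension `2 d²`, `d = card ι > 0`, so `V₀.Sep`.
Matched with `S = V₀.ρ f`: `V₀.Z h = V₀.ρ (f⁻¹ g φ(f)) T = ρ(f)⁻¹ ρ(g) (T ρ(f) T⁻¹) T = ρ(f)⁻¹ V₀.Z g ρ(f)` (`Rep.rel_mem` for `f ∈ L N i`).
-/

set_option autoImplicit false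

namespace Pool.Agent.Helper45.HS

theorem stepA {N : ℕ} {φ : FreeGroup (Fin N) →* FreeGroup (Fin N)} {i : ℕ} {ι : Type} [Fintype ι]
    [DecidableEq ι] [Nonempty ι] (V : Rep φ i ι) (hV : V.Sep) (g h f : FreeGroup (Fin N)) (hf : f ∈ L N i)
    (hh : h = f⁻¹ * g * φ f) :
    ∃ (κ : Type) (_ : Fintype κ) (_ : DecidableEq κ) (V0 : Rep φ i κ) (D1 F1 D2 F2 : κ → ℂ),
      Quad V0 g h V.tr D1 F1 D2 F2 ∧ V0.Sep ∧ Matched V0 g h := by
  obtain ⟨D1, F1, D2, F2, hq⟩ := twist_quad V g h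
  refine ⟨(ι × ι) ⊕ (ι × ι), inferInstance, inferInstance,
    (V.twist (V.Z g)).sum (V.twist (V.Z h)), D1, F1, D2, F2, hq, ?_, ?_⟩
  · intro w hw hw1 htr
    apply hV w hw hw1
    rw [Rep.tr_sum, Rep.tr_twist, Rep.tr_twist, Fintype.card_sum, Fintype.card_prod] at htr
    push_cast at htr
    have hd : (Fintype.card ι : ℂ) ≠ 0 := by
      exact_mod_cast Fintype.card_ne_zero
    have h1 : (2 * (Fintype.card ι : ℂ)) * V.tr w = (2 * (Fintype.card ι : ℂ)) * Fintype.card ι := by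
      linear_combination htr
    exact mul_left_cancel₀ (mul_ne_zero two_ne_zero hd) h1
  · refine ⟨((V.twist (V.Z g)).sum (V.twist (V.Z h))).ρ f, ?_⟩
    set V0 := (V.twist (V.Z g)).sum (V.twist (V.Z h)) with hV0
    have h1 := V0.rel_mem f hf
    have h2 : V0.ρ h = (V0.ρ f)⁻¹ * V0.ρ g * (V0.T * V0.ρ f * V0.T⁻¹) := by
      rw [hh, map_mul, map_mul, map_inv, h1]
    change V0.ρ g * V0.T * V0.ρ f = V0.ρ f * (V0.ρ h * V0.T)
    rw [h2]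
    group

end Pool.Agent.Helper45.HS
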